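import Pool.Agent.Q202.RT.Gal
import Pool.Agent.W401.Cheb.Main

/-!
# Densities of primes in residue classes modulo which a given prime is a `p`-th power
-/

set_option autoImplicit false

namespace Pool.Agent.Q202.RT

open NumberField Filter Topology Finset Pool.Agent.W401.Cheb

theorem fixed_frob {q : ℕ} [hq : Fact q.Prime] {k : Type*} [Field k] [Algebra (ZMod q) k] (x : k) (hx : x ^ q = x) :
    ∃ c : ZMod q, algebraMap (ZMod q) k c = x := by
  classical
  have hne : (Polynomial.X ^ q - Polynomial.X : Polynomial k) ≠ 0 := FiniteField.X_pow_card_sub_X_ne_zero k hq.out.one_lt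
  set S : Finset k := univ.image (algebraMap (ZMod q) k) with hS
  have hSc : S.card = q := by
    rw [hS, card_image_of_injective _ (algebraMap (ZMod q) k).injective, card_univ, ZMod.card]
  have hmem : ∀ y : k, y ∈ (Polynomial.X ^ q - Polynomial.X : Polynomial k).roots.toFinset ↔ y ^ q = y := by
    intro y
    rw [Multiset.mem_toFinset, Polynomial.mem_roots hne, Polynomial.IsRoot.def]
    simp [sub_eq_zero]
  have hsub : S ⊆ (Polynomial.X ^ q - Polynomial.X : Polynomial k).roots.toFinset := by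
    intro y hy
    obtain ⟨c, -, rfl⟩ := mem_image.1 hy
    rw [hmem, ← map_pow, ZMod.pow_card]
  have hcard : (Polynomial.X ^ q - Polynomial.X : Polynomial k).roots.toFinset.card ≤ S.card := by
    rw [hSc]
    calc _ ≤ Multiset.card (Polynomial.X ^ q - Polynomial.X : Polynomial k).roots := Multiset.toFinset_card_le _
      _ ≤ (Polynomial.X ^ q - Polynomial.X : Polynomial k).natDegree := Polynomial.card_roots' _
      _ = q := FiniteField.X_pow_card_sub_X_natDegree_eq k hq.out.one_lt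
  have he := eq_of_subset_of_card_le hsub hcard
  have hxS : x ∈ S := by rw [he, hmem]; exact hx
  obtain ⟨c, -, hc⟩ := mem_image.1 hxS
  exact ⟨c, hc⟩

theorem prim_map {R k : Type*} [CommRing R] [IsDomain R] [CharZero R] [Field k] {q : ℕ} [CharP k q] {n : ℕ} (hn : n ≠ 0)
    (hqn : ¬ q ∣ n) (φ : R →+* k) {w : R} (hw : IsPrimitiveRoot w n) : IsPrimitiveRoot (φ w) n := by
  have : NeZero ((n : ℕ) : R) := ⟨by exact_mod_cast hn⟩
  have : NeZero ((n : ℕ) : k) := ⟨fun h => hqn ((CharP.cast_eq_zero_iff k q n).1 h)⟩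
  have h1 : (Polynomial.cyclotomic n R).IsRoot w := Polynomial.isRoot_cyclotomic_iff.2 hw
  have h2 := h1.map (f := φ)
  rw [Polynomial.map_cyclotomic] at h2
  exact Polynomial.isRoot_cyclotomic_iff.1 h2

section Frob
variable {L : Type} [Field L] [NumberField L] [IsGalois ℚ L] {N p a : ℕ} {ζ α : L}

theorem frob_zeta (hN : N ≠ 0) (hζ : IsPrimitiveRoot ζ N) {q : ℕ} [Fact q.Prime] (hqN : ¬ q ∣ N)
    (φ : 𝓞 L →+* AlgebraicClosure (ZMod q)) {σ : Gal(L/ℚ)} (hσ : HasFrob q φ σ) {m : ℕ} (hm : σ ζ = ζ ^ m) :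
    (m : ZMod N) = (q : ZMod N) := by
  have : NeZero N := ⟨hN⟩
  have h1 : IsPrimitiveRoot (φ hζ.toInteger) N := prim_map hN hqN φ hζ.toInteger_isPrimitiveRoot
  have h2 : σ • hζ.toInteger = hζ.toInteger ^ m := by
    apply RingOfIntegers.ext
    have e1 : ((hζ.toInteger ^ m : 𝓞 L) : L) = (hζ.toInteger : L) ^ m := map_pow (algebraMap (𝓞 L) L) _ _
    rw [e1]
    show σ ζ = ζ ^ m
    exact hm
  have h3 := hσ hζ.toInteger
  rw [h2, map_pow] at h3
  obtain ⟨u, hu⟩ := h1.isUnit hN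
  have h4 : IsPrimitiveRoot u N := IsPrimitiveRoot.coe_units_iff.1 (by rw [hu]; exact h1)
  have h5 : u ^ m = u ^ q := Units.ext (by push_cast; rw [hu]; exact h3)
  rw [ZMod.natCast_eq_natCast_iff, h4.eq_orderOf]
  exact pow_eq_pow_iff_modEq.1 h5

theorem frob_alpha (hp : p.Prime) (hα : α ^ p = a) {q : ℕ} [hq : Fact q.Prime] (hqp : ¬ q ∣ p) (hqa : ¬ q ∣ a)
    (hq1 : p ∣ q - 1) (φ : 𝓞 L →+* AlgebraicClosure (ZMod q)) {σ : Gal(L/ℚ)} (hσ : HasFrob q φ σ) {w : L}
    (hw : w ^ p = 1) (hwa : σ α = w * α) : w = 1 ↔ ∃ c : ZMod q, c ^ p = (a : ZMod q) := by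
  set k := AlgebraicClosure (ZMod q) with hk
  have hiα : IsIntegral ℤ α := by
    apply IsIntegral.of_pow hp.pos
    rw [hα, show (a : L) = algebraMap ℤ L (a : ℤ) by simp]
    exact isIntegral_algebraMap
  have hiw : IsIntegral ℤ w := by
    apply IsIntegral.of_pow hp.pos
    rw [hw]
    exact isIntegral_one
  set α' : 𝓞 L := ⟨α, hiα⟩ with hα'
  set w' : 𝓞 L := ⟨w, hiw⟩ with hw'
  have h1 : σ • α' = w' * α' := by
    apply RingOfIntegers.ext
    show σ α = w * α
    exact hwa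
  have h2 : α' ^ p = (a : 𝓞 L) := by
    apply RingOfIntegers.ext
    have e1 : ((α' ^ p : 𝓞 L) : L) = (α' : L) ^ p := map_pow (algebraMap (𝓞 L) L) _ _
    have e2 : (((a : ℕ) : 𝓞 L) : L) = (a : L) := map_natCast (algebraMap (𝓞 L) L) _
    rw [e1, e2]
    exact hα
  have h3 : φ α' ^ p = (a : k) := by rw [← map_pow, h2, map_natCast]
  have hak : (a : k) ≠ 0 := fun h => hqa ((CharP.cast_eq_zero_iff k q a).1 h)
  have h0 : φ α' ≠ 0 := by
    intro h
    rw [h, zero_pow hp.ne_zero] at h3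
    exact hak h3.symm
  have h4 : φ w' * φ α' = φ α' ^ q := by rw [← map_mul, ← h1]; exact hσ α'
  constructor
  · intro hw1
    have e1 : φ w' = 1 := by
      have : w' = 1 := RingOfIntegers.ext hw1
      rw [this, map_one]
    rw [e1, one_mul] at h4
    obtain ⟨c, hc⟩ := fixed_frob (φ α') h4.symm
    refine ⟨c, (algebraMap (ZMod q) k).injective ?_⟩
    rw [map_pow, hc, h3, map_natCast]
  · rintro ⟨c, hc⟩
    have hck : algebraMap (ZMod q) k c ^ p = (a : k) := by rw [← map_pow, hc, map_natCast]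
    have hc0 : algebraMap (ZMod q) k c ≠ 0 := by
      intro h
      rw [h, zero_pow hp.ne_zero] at hck
      exact hak hck.symm
    set y : k := φ α' / algebraMap (ZMod q) k c with hy
    have hy1 : y ^ p = 1 := by rw [hy, div_pow, h3, hck, div_self hak]
    obtain ⟨j, hj⟩ := hq1
    have hqj : q = p * j + 1 := by have := hq.out.one_le; omega
    have hyq : y ^ q = y := by
      have : ∀ n : ℕ, n = p * j + 1 → y ^ n = y := by
        rintro n rfl
        rw [pow_succ, pow_mul, hy1, one_pow, one_mul]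
      exact this q hqj
    have hcq : algebraMap (ZMod q) k c ^ q = algebraMap (ZMod q) k c := by rw [← map_pow, ZMod.pow_card]
    have hαy : φ α' = y * algebraMap (ZMod q) k c := by rw [hy, div_mul_cancel₀ _ hc0]
    have h5 : φ α' ^ q = φ α' := by
      conv_lhs => rw [hαy, mul_pow, hyq, hcq]
      exact hαy.symm
    rw [h5] at h4
    have h6 : φ w' = 1 := mul_right_cancel₀ h0 (by rw [h4, one_mul])
    by_contra hne
    have hprim : IsPrimitiveRoot w p := by
      have := IsPrimitiveRoot.orderOf w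
      rwa [orderOf_eq_prime hw hne (hp := ⟨hp⟩)] at this
    have hprim' : IsPrimitiveRoot w' p := by
      apply IsPrimitiveRoot.of_map_of_injective (f := algebraMap (𝓞 L) L) (hf := RingOfIntegers.coe_injective)
      exact hprim
    have h7 := prim_map (q := q) hp.ne_zero hqp φ hprim'
    rw [h6] at h7
    exact hp.one_lt.ne' (h7.unique IsPrimitiveRoot.one)

end Frob

/-- density from a description of the Frobenius elements -/
theorem dens_of_frob (L : Type) [Field L] [NumberField L] [IsGalois ℚ L] (C : Finset Gal(L/ℚ)) (Q : ℕ → Prop)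
    [DecidablePred Q] (D0 : ℕ) (hD0 : 0 < D0)
    (h : ∀ (q : ℕ) [Fact q.Prime], ¬ q ∣ D0 → ∀ (φ : 𝓞 L →+* AlgebraicClosure (ZMod q)) (σ : Gal(L/ℚ)),
      HasFrob q φ σ → (σ ∈ C ↔ Q q)) :
    Tendsto (M fun q => if Q q then 1 else 0) atTop (𝓝 ((C.card : ℝ) / Nat.card Gal(L/ℚ))) := by
  classical
  obtain ⟨D, hD, htor⟩ := torsor L
  have hG : (0 : ℝ) < Nat.card Gal(L/ℚ) := by exact_mod_cast Nat.card_pos
  have h1 : Tendsto (M fun q => ∑ g ∈ C, (xp L g q : ℝ)) atTop (𝓝 (C.card : ℝ)) := by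
    have e1 : (C.card : ℝ) = ∑ g ∈ C, (1 : ℝ) := by simp
    rw [e1]
    refine (tendsto_finsetSum C fun g _ => chebotarev L g).congr fun n => ?_
    rw [M_sum]
    rfl
  have h2 : Tendsto (M fun q => (1 / (Nat.card Gal(L/ℚ) : ℝ)) * ∑ g ∈ C, (xp L g q : ℝ)) atTop
      (𝓝 ((C.card : ℝ) / Nat.card Gal(L/ℚ))) := by
    have e1 := h1.const_mul (1 / (Nat.card Gal(L/ℚ) : ℝ))
    rw [one_div_mul_eq_div] at e1
    refine e1.congr fun n => ?_
    rw [M_smul]
  refine M_congr (D := D * D0) (Nat.mul_pos hD hD0) (fun q hq hqD => ?_) h2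
  have : Fact q.Prime := ⟨hq⟩
  have hqD1 : ¬ q ∣ D := fun h => hqD (h.mul_right _)
  have hqD2 : ¬ q ∣ D0 := fun h => hqD (h.mul_left _)
  have ht := htor q hqD1
  have hzero : ∀ g : Gal(L/ℚ), (∀ φ : 𝓞 L →+* AlgebraicClosure (ZMod q), ¬ HasFrob q φ g) → xp L g q = 0 := by
    intro g hg
    unfold xp
    rw [dif_pos hq]
    have : IsEmpty {φ : 𝓞 L →+* AlgebraicClosure (ZMod q) // HasFrob q φ g} := ⟨fun x => hg x.1 x.2⟩
    exact Nat.card_of_isEmpty
  by_cases hQ : Q q
  · rw [if_pos hQ]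
    have e1 : ∑ g ∈ C, xp L g q = ∑ g : Gal(L/ℚ), xp L g q := by
      refine sum_subset (subset_univ _) fun g _ hgC => hzero g fun φ hφ => hgC ((h q hqD2 φ g hφ).2 hQ)
    have e2 : (∑ g ∈ C, (xp L g q : ℝ)) = Nat.card Gal(L/ℚ) := by
      rw [← sum_xp ht, ← e1]
      push_cast
      rfl
    rw [e2, one_div_mul_cancel hG.ne']
  · rw [if_neg hQ]
    have e1 : ∑ g ∈ C, (xp L g q : ℝ) = 0 := by
      refine sum_eq_zero fun g hg => ?_
      rw [hzero g fun φ hφ => hQ ((h q hqD2 φ g hφ).1 hg), Nat.cast_zero]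
    rw [e1, mul_zero]

end Pool.Agent.Q202.RT
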