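import Pool.Agent.Q202.RT.Main

/-!
# Upper bounds for the relative density of sets of primes given by `p`-th power residue conditions
-/

set_option autoImplicit false

namespace Pool.Agent.Q202.RT

open NumberField Filter Topology Finset Pool.Agent.W401.Cheb

theorem card_eq_M (Q : ℕ → Prop) [DecidablePred Q] (x : ℕ) :
    (((pr x).filter Q).card : ℝ) = M (fun q => if Q q then 1 else 0) x * (Nat.primeCounting x : ℝ) := by
  unfold M
  rw [card_filter]
  push_cast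
  by_cases h : (Nat.primeCounting x : ℝ) = 0
  · have h1 : pr x = ∅ := by
      rw [eq_empty_iff_forall_notMem]
      intro q hq
      have h2 := mem_pr.1 hq
      have h3 : 0 < Nat.primeCounting x := by
        rw [Nat.primeCounting, Nat.primeCounting', Nat.count_eq_card_filter_range, card_pos]
        exact ⟨q, mem_filter.2 ⟨mem_range.2 (by omega), h2.2⟩⟩
      have h4 : (0 : ℝ) < (Nat.primeCounting x : ℝ) := by exact_mod_cast h3
      linarith
    rw [h1]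
    simp
  · rw [div_mul_cancel₀ _ h]

open Classical in
/-- **The engine.** `A` is a set of residue classes modulo `N`, all of them `1` modulo `p`. If `bad q` implies, for the primes `q`
in a class `r` of `A` outside `A0`, that the number `b r` (not a `p`-th power) is a `p`-th power modulo `q`, then the proportion of
the bad primes among the primes in the classes of `A` is at most `|A0| / |A| + (1 - |A0| / |A|) / p`. -/
theorem engine (N p : ℕ) (hN : N ≠ 0) (hp : p.Prime) (hp2 : p ≠ 2) (hpN : p ∣ N)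
    (A A0 : Finset (ZMod N)ˣ) (hA0 : A0 ⊆ A) (hAne : A.Nonempty) (hA : ∀ u ∈ A, ZMod.castHom hpN (ZMod p) (u : ZMod N) = 1)
    (b : (ZMod N)ˣ → ℕ) (hb0 : ∀ r ∈ A \ A0, b r ≠ 0) (hb : ∀ r ∈ A \ A0, ∀ c : ℚ, c ^ p ≠ (b r : ℚ)) (bad : ℕ → Prop)
    (hbad : ∀ q : ℕ, q.Prime → ∀ r ∈ A \ A0, (r : ZMod N) = (q : ZMod N) → bad q → ∃ y : ZMod q, y ^ p = (b r : ZMod q))
    (ε : ℝ) (hε : 0 < ε) :
    ∀ᶠ x : ℕ in atTop, (((pr x).filter fun q : ℕ => (∃ u ∈ A, ((u : (ZMod N)ˣ) : ZMod N) = (q : ZMod N)) ∧ bad q).card : ℝ) ≤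
      (((A0.card : ℝ) + ((A.card : ℝ) - A0.card) / p) / A.card + ε) *
        (((pr x).filter fun q : ℕ => ∃ u ∈ A, ((u : (ZMod N)ˣ) : ZMod N) = (q : ZMod N)).card : ℝ) := by
  have : NeZero N := ⟨hN⟩
  have hφ : (0 : ℝ) < (N.totient : ℝ) := by exact_mod_cast Nat.totient_pos.2 (Nat.pos_of_ne_zero hN)
  have hp0 : (0 : ℝ) < p := by exact_mod_cast hp.pos
  have hAc : (0 : ℝ) < A.card := by exact_mod_cast hAne.card_pos
  have h1 : Tendsto (M fun q => if ∃ u ∈ A, ((u : (ZMod N)ˣ) : ZMod N) = (q : ZMod N) then 1 else 0) atTop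
      (𝓝 ((A.card : ℝ) / N.totient)) :=
    (dens_main N p 2 hN hp hp2 hpN two_ne_zero (fun b => by
      have := rat_no_root hp Nat.prime_two b
      exact_mod_cast this) A hA).1
  have h0 : Tendsto (M fun q => if ∃ u ∈ A0, ((u : (ZMod N)ˣ) : ZMod N) = (q : ZMod N) then 1 else 0) atTop
      (𝓝 ((A0.card : ℝ) / N.totient)) :=
    (dens_main N p 2 hN hp hp2 hpN two_ne_zero (fun b => by
      have := rat_no_root hp Nat.prime_two b
      exact_mod_cast this) A0 (fun u hu => hA u (hA0 hu))).1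
  have h2 : ∀ r ∈ A \ A0, Tendsto (M fun q => if (∃ u ∈ ({r} : Finset (ZMod N)ˣ), ((u : (ZMod N)ˣ) : ZMod N) = (q : ZMod N)) ∧
      ∃ c : ZMod q, c ^ p = (b r : ZMod q) then 1 else 0) atTop (𝓝 (1 / (N.totient * p))) := by
    intro r hr
    have := (dens_main N p (b r) hN hp hp2 hpN (hb0 r hr) (hb r hr) {r} (fun u hu => by
      rw [mem_singleton] at hu
      rw [hu]
      exact hA r (mem_sdiff.1 hr).1)).2
    rwa [card_singleton, Nat.cast_one] at this
  -- the upper bound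
  have h3 : Tendsto (M fun q => (if ∃ u ∈ A0, ((u : (ZMod N)ˣ) : ZMod N) = (q : ZMod N) then (1 : ℝ) else 0) +
      ∑ r ∈ A \ A0, (if (∃ u ∈ ({r} : Finset (ZMod N)ˣ), ((u : (ZMod N)ˣ) : ZMod N) = (q : ZMod N)) ∧
      ∃ c : ZMod q, c ^ p = (b r : ZMod q) then (1 : ℝ) else 0)) atTop
      (𝓝 ((A0.card : ℝ) / N.totient + ∑ r ∈ A \ A0, 1 / (N.totient * p : ℝ))) := by
    refine (h0.add (tendsto_finsetSum (A \ A0) h2)).congr fun n => ?_
    rw [M_add, M_sum]
  have h4 : ∀ x, M (fun q => if (∃ u ∈ A, ((u : (ZMod N)ˣ) : ZMod N) = (q : ZMod N)) ∧ bad q then (1 : ℝ) else 0) x ≤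
      M (fun q => (if ∃ u ∈ A0, ((u : (ZMod N)ˣ) : ZMod N) = (q : ZMod N) then (1 : ℝ) else 0) +
      ∑ r ∈ A \ A0, (if (∃ u ∈ ({r} : Finset (ZMod N)ˣ), ((u : (ZMod N)ˣ) : ZMod N) = (q : ZMod N)) ∧
      ∃ c : ZMod q, c ^ p = (b r : ZMod q) then (1 : ℝ) else 0)) x := by
    intro x
    refine M_mono (fun q hq => ?_) x
    have hs : (0 : ℝ) ≤ ∑ r ∈ A \ A0, (if (∃ u ∈ ({r} : Finset (ZMod N)ˣ), ((u : (ZMod N)ˣ) : ZMod N) = (q : ZMod N)) ∧
      ∃ c : ZMod q, c ^ p = (b r : ZMod q) then (1 : ℝ) else 0) := sum_nonneg fun r _ => by split_ifs <;> norm_num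
    by_cases h5 : (∃ u ∈ A, ((u : (ZMod N)ˣ) : ZMod N) = (q : ZMod N)) ∧ bad q
    · rw [if_pos h5]
      obtain ⟨⟨u, hu, huq⟩, hbq⟩ := h5
      by_cases hu0 : u ∈ A0
      · rw [if_pos ⟨u, hu0, huq⟩]
        linarith
      · have hur : u ∈ A \ A0 := mem_sdiff.2 ⟨hu, hu0⟩
        have h6 := hbad q hq u hur huq hbq
        have h7 : (1 : ℝ) ≤ ∑ r ∈ A \ A0, (if (∃ u ∈ ({r} : Finset (ZMod N)ˣ), ((u : (ZMod N)ˣ) : ZMod N) = (q : ZMod N)) ∧
            ∃ c : ZMod q, c ^ p = (b r : ZMod q) then (1 : ℝ) else 0) := by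
          refine le_trans (le_of_eq ?_) (single_le_sum (fun r _ => by split_ifs <;> norm_num) hur)
          rw [if_pos ⟨⟨u, mem_singleton_self u, huq⟩, h6⟩]
        have h8 : (0 : ℝ) ≤ (if ∃ u ∈ A0, ((u : (ZMod N)ˣ) : ZMod N) = (q : ZMod N) then (1 : ℝ) else 0) := by
          split_ifs <;> norm_num
        linarith
    · rw [if_neg h5]
      have h8 : (0 : ℝ) ≤ (if ∃ u ∈ A0, ((u : (ZMod N)ˣ) : ZMod N) = (q : ZMod N) then (1 : ℝ) else 0) := by
        split_ifs <;> norm_num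
      linarith
  -- the quotient
  have hlim : ((A0.card : ℝ) / N.totient + ∑ r ∈ A \ A0, 1 / (N.totient * p : ℝ)) / ((A.card : ℝ) / N.totient) =
      ((A0.card : ℝ) + ((A.card : ℝ) - A0.card) / p) / A.card := by
    rw [sum_const, card_sdiff_of_subset hA0, nsmul_eq_mul, Nat.cast_sub (card_le_card hA0)]
    field_simp
  have h5 := h3.div h1 (by positivity)
  rw [hlim] at h5
  filter_upwards [h5.eventually_lt_const (show ((A0.card : ℝ) + ((A.card : ℝ) - A0.card) / p) / A.card <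
      ((A0.card : ℝ) + ((A.card : ℝ) - A0.card) / p) / A.card + ε by linarith),
    h1.eventually (lt_mem_nhds (show (0 : ℝ) < (A.card : ℝ) / N.totient by positivity))] with x hx1 hx2
  rw [card_eq_M, card_eq_M, ← mul_assoc]
  refine mul_le_mul_of_nonneg_right ?_ (Nat.cast_nonneg _)
  refine (h4 x).trans ?_
  have hx3 : (M (fun q => (if ∃ u ∈ A0, ((u : (ZMod N)ˣ) : ZMod N) = (q : ZMod N) then (1 : ℝ) else 0) +
      ∑ r ∈ A \ A0, (if (∃ u ∈ ({r} : Finset (ZMod N)ˣ), ((u : (ZMod N)ˣ) : ZMod N) = (q : ZMod N)) ∧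
      ∃ c : ZMod q, c ^ p = (b r : ZMod q) then (1 : ℝ) else 0)) x) /
      (M (fun q => if ∃ u ∈ A, ((u : (ZMod N)ˣ) : ZMod N) = (q : ZMod N) then 1 else 0) x) <
      ((A0.card : ℝ) + ((A.card : ℝ) - A0.card) / p) / A.card + ε := hx1
  rw [div_lt_iff₀ hx2] at hx3
  exact hx3.le

end Pool.Agent.Q202.RT
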