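import Pool.Agent.Q202.RT.Fld

/-!
# The field generated by the `N`-th roots of unity and a `p`-th root of a prime number, II
-/

set_option autoImplicit false

namespace Pool.Agent.Q202.RT

open NumberField Polynomial IntermediateField

theorem exists_fld (N p a : ℕ) (hN : N ≠ 0) (hp : p.Prime) (hpN : p ∣ N) (ha : a ≠ 0) :
    ∃ (L : Type) (_ : Field L) (_ : NumberField L) (_ : IsGalois ℚ L) (ζ α : L), IsPrimitiveRoot ζ N ∧ α ^ p = a ∧
      ∀ σ : Gal(L/ℚ), σ ζ = ζ → σ α = α → σ = 1 := by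
  set f : ℚ[X] := (X ^ N - 1) * (X ^ p - C (a : ℚ)) with hf
  set Ω := AlgebraicClosure ℚ with hΩ
  have : NeZero ((N : ℕ) : Ω) := ⟨by exact_mod_cast hN⟩
  have : NeZero N := ⟨hN⟩
  set E : IntermediateField ℚ Ω := adjoin ℚ (f.rootSet Ω) with hE
  have hf0 : f ≠ 0 := by
    rw [hf]
    refine mul_ne_zero ?_ ?_
    · have := (monic_X_pow_sub_C (1 : ℚ) hN).ne_zero
      simpa using this
    · exact (monic_X_pow_sub_C (a : ℚ) hp.ne_zero).ne_zero
  have hmem : ∀ x : Ω, x ∈ f.rootSet Ω ↔ x ^ N = 1 ∨ x ^ p = (a : Ω) := by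
    intro x
    rw [mem_rootSet, hf, map_mul, mul_eq_zero]
    simp only [map_sub, map_pow, aeval_X, map_natCast, map_one, sub_eq_zero]
    exact ⟨fun h => h.2, fun h => ⟨hf0, h⟩⟩
  obtain ⟨ζ, hζ⟩ := HasEnoughRootsOfUnity.exists_primitiveRoot Ω N
  obtain ⟨α, hα⟩ := IsAlgClosed.exists_pow_nat_eq (a : Ω) hp.pos
  have hζE : ζ ∈ E := subset_adjoin ℚ _ ((hmem ζ).2 (Or.inl hζ.pow_eq_one))
  have hαE : α ∈ E := subset_adjoin ℚ _ ((hmem α).2 (Or.inr hα))
  have hsp : IsSplittingField ℚ E f := adjoin_rootSet_isSplittingField (IsAlgClosed.splits _)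
  have hfd : FiniteDimensional ℚ E := IsSplittingField.finiteDimensional E f
  have hnor : Normal ℚ E := Normal.of_isSplittingField f
  have hgal : IsGalois ℚ E := { }
  have hα0 : α ≠ 0 := by
    rintro rfl
    rw [zero_pow hp.ne_zero] at hα
    exact ha (by exact_mod_cast hα.symm)
  have hgen : ∀ σ : E ≃ₐ[ℚ] E, σ ⟨ζ, hζE⟩ = ⟨ζ, hζE⟩ → σ ⟨α, hαE⟩ = ⟨α, hαE⟩ → σ = 1 := by
    intro σ h1 h2
    have h3 : (E.val.comp (σ : E →ₐ[ℚ] E)) = E.val := by
      apply adjoin_algHom_ext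
      intro x hx
      have hpow : ∀ y : Ω, ∀ hy : y ∈ E, y ^ N = 1 → σ ⟨y, hy⟩ = ⟨y, hy⟩ := by
        intro y hy hyN
        obtain ⟨i, -, hi⟩ := hζ.eq_pow_of_pow_eq_one hyN
        have e1 : (⟨y, hy⟩ : E) = ⟨ζ, hζE⟩ ^ i := Subtype.ext hi.symm
        rw [e1, map_pow, h1]
      have key : ∀ hy : x ∈ E, σ ⟨x, hy⟩ = ⟨x, hy⟩ := by
        intro hy
        rcases (hmem x).1 hx with h | h
        · exact hpow x hy h
        · have hyE : x / α ∈ E := E.div_mem hy hαE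
          have h4 : (x / α) ^ N = 1 := by
            obtain ⟨k, hk⟩ := hpN
            rw [hk, pow_mul, div_pow, h, hα, div_self, one_pow]
            exact_mod_cast ha
          have h5 := hpow _ hyE h4
          have e1 : (⟨x, hy⟩ : E) = ⟨x / α, hyE⟩ * ⟨α, hαE⟩ := Subtype.ext (by
            show x = x / α * α
            exact (div_mul_cancel₀ x hα0).symm)
          rw [e1, map_mul, h5, h2]
      show ((σ ⟨x, _⟩ : E) : Ω) = x
      rw [key]
    ext x
    have := DFunLike.congr_fun h3 x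
    exact this
  have hz : IsPrimitiveRoot (⟨ζ, hζE⟩ : E) N := by
    apply IsPrimitiveRoot.of_map_of_injective (f := E.val) (hf := E.val.injective)
    exact hζ
  have ha' : (⟨α, hαE⟩ : E) ^ p = (a : E) := Subtype.ext (by push_cast; exact hα)
  have hchar : CharZero E := charZero_of_injective_algebraMap (algebraMap ℚ E).injective
  have hA : (E.algebra' : Algebra ℚ E) = DivisionRing.toRatAlgebra := Subsingleton.elim _ _
  have key : ∀ A : Algebra ℚ E, A = DivisionRing.toRatAlgebra → FiniteDimensional ℚ E → IsGalois ℚ E →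
      (∀ σ : E ≃ₐ[ℚ] E, σ ⟨ζ, hζE⟩ = ⟨ζ, hζE⟩ → σ ⟨α, hαE⟩ = ⟨α, hαE⟩ → σ = 1) →
      ∃ (L : Type) (_ : Field L) (_ : NumberField L) (_ : IsGalois ℚ L) (ζ α : L), IsPrimitiveRoot ζ N ∧ α ^ p = a ∧
      ∀ σ : Gal(L/ℚ), σ ζ = ζ → σ α = α → σ = 1 := by
    rintro A rfl h1 h2 h3
    exact ⟨E, inferInstance, { to_charZero := hchar, to_finiteDimensional := h1 }, h2, _, _, hz, ha', h3⟩
  exact key E.algebra' hA hfd hgal hgen

end Pool.Agent.Q202.RT
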