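import Pool.Agent.Q202.RT.Pair

/-!
# Residue classes with given `p`-th power residue symbol
-/

set_option autoImplicit false

namespace Pool.Agent.Q202.RT

open Finset Filter Topology Pool.Agent.W401.Cheb
open Pool.Agent.W569.TG (lk)
open Pool.Agent.Q315.FM (clp mem_clp clp_tendsto)

section
variable {p : ℕ} [hpF : Fact p.Prime]

/-- the symbol of a unit modulo a multiple of `k` -/
noncomputable def sy (χ : ∀ j : ℕ, (ZMod j)ˣ →* Multiplicative (ZMod p)) {N k : ℕ} (h : k ∣ N) (u : (ZMod N)ˣ) : ZMod p :=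
  Multiplicative.toAdd (χ k (ZMod.unitsMap h u))

theorem lk_eq_sy (χ : ∀ j : ℕ, (ZMod j)ˣ →* Multiplicative (ZMod p)) {N k q : ℕ} (h : k ∣ N) (u : (ZMod N)ˣ)
    (hu : (u : ZMod N) = (q : ZMod N)) : lk χ q k = sy χ h u := by
  have hc : q.Coprime N := by
    rw [← ZMod.isUnit_iff_coprime, ← hu]
    exact u.isUnit
  have hck : q.Coprime k := hc.coprime_dvd_right h
  unfold lk sy
  rw [dif_pos hck]
  congr 2
  apply Units.ext
  rw [ZMod.coe_unitOfCoprime, ZMod.unitsMap_val, hu, ZMod.cast_natCast h]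

theorem chi_surj {χ : ∀ j : ℕ, (ZMod j)ˣ →* Multiplicative (ZMod p)} {k : ℕ} (h : ∃ x, χ k x ≠ 1) (i : ZMod p) :
    ∃ y : (ZMod k)ˣ, Multiplicative.toAdd (χ k y) = i := by
  obtain ⟨x, hx⟩ := h
  have hc : Multiplicative.toAdd (χ k x) ≠ 0 := fun h => hx (toAdd_eq_zero.1 h)
  refine ⟨x ^ (i / Multiplicative.toAdd (χ k x)).val, ?_⟩
  rw [map_pow, toAdd_pow, nsmul_eq_mul, ZMod.natCast_zmod_val, div_mul_cancel₀ _ hc]

open Classical in
/-- all values of the symbol are equally frequent -/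
theorem fib (χ : ∀ j : ℕ, (ZMod j)ˣ →* Multiplicative (ZMod p)) {M k : ℕ} (hM : M ≠ 0) (hk : k ≠ 0) (hMk : M.Coprime k)
    (h : ∃ x, χ k x ≠ 1) (A : Finset (ZMod (M * k))ˣ)
    (hA : ∀ u v : (ZMod (M * k))ˣ, ZMod.castHom (Dvd.intro k rfl : M ∣ M * k) (ZMod M) (u : ZMod (M * k)) =
      ZMod.castHom (Dvd.intro k rfl : M ∣ M * k) (ZMod M) (v : ZMod (M * k)) → u ∈ A → v ∈ A) :
    p * (A.filter fun u => sy χ (Dvd.intro_left M rfl : k ∣ M * k) u = 0).card = A.card := by
  have : NeZero (M * k) := ⟨mul_ne_zero hM hk⟩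
  have : NeZero k := ⟨hk⟩
  have : NeZero M := ⟨hM⟩
  -- elements with given symbol
  have hg : ∀ i : ZMod p, ∃ g : (ZMod (M * k))ˣ, ZMod.castHom (Dvd.intro k rfl : M ∣ M * k) (ZMod M) (g : ZMod (M * k)) = 1 ∧
      sy χ (Dvd.intro_left M rfl : k ∣ M * k) g = i := by
    intro i
    obtain ⟨y, hy⟩ := chi_surj h i
    obtain ⟨n, hn1, hn2⟩ := Nat.chineseRemainder hMk 1 (y : ZMod k).val
    have hc1 : n.Coprime M := by
      have := Nat.ModEq.gcd_eq hn1
      rw [Nat.gcd_one_left] at this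
      exact this
    have hc2 : n.Coprime k := by
      have h1 := ZMod.val_coe_unit_coprime y
      have h2 := Nat.ModEq.gcd_eq hn2
      exact h2.trans h1
    have hc : n.Coprime (M * k) := Nat.Coprime.mul_right hc1 hc2
    refine ⟨ZMod.unitOfCoprime n hc, ?_, ?_⟩
    · rw [ZMod.coe_unitOfCoprime, map_natCast]
      have := (ZMod.natCast_eq_natCast_iff n 1 M).2 hn1
      rwa [Nat.cast_one] at this
    · unfold sy
      have : ZMod.unitsMap (Dvd.intro_left M rfl : k ∣ M * k) (ZMod.unitOfCoprime n hc) = y := by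
        apply Units.ext
        rw [ZMod.unitsMap_val, ZMod.coe_unitOfCoprime, ZMod.cast_natCast (Dvd.intro_left M rfl : k ∣ M * k)]
        have := (ZMod.natCast_eq_natCast_iff _ _ k).2 hn2
        rw [this, ZMod.natCast_zmod_val]
      rw [this, hy]
  have hmul : ∀ u v : (ZMod (M * k))ˣ, sy χ (Dvd.intro_left M rfl : k ∣ M * k) (u * v) =
      sy χ (Dvd.intro_left M rfl : k ∣ M * k) u + sy χ (Dvd.intro_left M rfl : k ∣ M * k) v := by
    intro u v
    unfold sy
    rw [map_mul, map_mul, toAdd_mul]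
  have hmem : ∀ (u g : (ZMod (M * k))ˣ), ZMod.castHom (Dvd.intro k rfl : M ∣ M * k) (ZMod M) (g : ZMod (M * k)) = 1 →
      (u ∈ A ↔ u * g ∈ A) := by
    intro u g hg
    have e : ZMod.castHom (Dvd.intro k rfl : M ∣ M * k) (ZMod M) ((u * g : (ZMod (M * k))ˣ) : ZMod (M * k)) =
        ZMod.castHom (Dvd.intro k rfl : M ∣ M * k) (ZMod M) (u : ZMod (M * k)) := by
      rw [Units.val_mul, map_mul, hg, mul_one]
    exact ⟨hA _ _ e.symm, hA _ _ e⟩
  have hcard : ∀ i : ZMod p, (A.filter fun u => sy χ (Dvd.intro_left M rfl : k ∣ M * k) u = i).card =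
      (A.filter fun u => sy χ (Dvd.intro_left M rfl : k ∣ M * k) u = 0).card := by
    intro i
    obtain ⟨g, hg1, hg2⟩ := hg (-i)
    refine card_bij (fun u _ => u * g) ?_ ?_ ?_
    · intro u hu
      rw [mem_filter] at hu ⊢
      exact ⟨(hmem u g hg1).1 hu.1, by rw [hmul, hu.2, hg2, add_neg_cancel]⟩
    · intro u _ v _ huv
      exact mul_right_cancel huv
    · intro v hv
      rw [mem_filter] at hv
      refine ⟨v * g⁻¹, ?_, by rw [inv_mul_cancel_right]⟩
      rw [mem_filter]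
      have e1 : sy χ (Dvd.intro_left M rfl : k ∣ M * k) (v * g⁻¹) = i := by
        have := hmul (v * g⁻¹) g
        rw [inv_mul_cancel_right, hv.2, hg2] at this
        rw [eq_comm, ← sub_eq_add_neg, sub_eq_zero] at this
        exact this
      refine ⟨(hmem (v * g⁻¹) g hg1).2 (by rw [inv_mul_cancel_right]; exact hv.1), e1⟩
  have h1 := card_eq_sum_card_fiberwise (s := A) (t := (univ : Finset (ZMod p)))
    (f := fun u => sy χ (Dvd.intro_left M rfl : k ∣ M * k) u) fun _ _ => mem_univ _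
  rw [h1, sum_congr rfl fun i _ => hcard i, sum_const, card_univ, ZMod.card, smul_eq_mul]

end

end Pool.Agent.Q202.RT
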