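import Mathlib

/-!
# The field generated by the `N`-th roots of unity and a `p`-th root of a prime number
-/

set_option autoImplicit false

namespace Pool.Agent.Q202.RT

open NumberField Polynomial IntermediateField

/-- a number whose exact power of some prime is not a `p`-th power is not a `p`-th power of a rational number -/
theorem rat_no_root' {p a l : ℕ} (hp : p.Prime) (ha : a ≠ 0) (hl : l.Prime) (h1 : ¬ p ∣ padicValNat l a) (b : ℚ) :
    b ^ p ≠ (a : ℚ) := by
  intro h
  have hb : b ≠ 0 := by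
    rintro rfl
    rw [zero_pow hp.ne_zero] at h
    exact ha (by exact_mod_cast h.symm)
  have : Fact l.Prime := ⟨hl⟩
  have h2 := congrArg (padicValRat l) h
  rw [padicValRat.pow, padicValRat.of_nat] at h2
  apply h1
  have h3 : (p : ℤ) ∣ (padicValNat l a : ℤ) := ⟨_, h2.symm⟩
  exact_mod_cast h3

/-- a prime number is not a `p`-th power of a rational number -/
theorem rat_no_root {p a : ℕ} (hp : p.Prime) (ha : a.Prime) (b : ℚ) : b ^ p ≠ (a : ℚ) := by
  intro h
  have hb : b ≠ 0 := by
    rintro rfl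
    rw [zero_pow hp.ne_zero] at h
    exact ha.ne_zero (by exact_mod_cast h.symm)
  have : Fact a.Prime := ⟨ha⟩
  have h1 := congrArg (padicValRat a) h
  rw [padicValRat.pow, padicValRat.self ha.one_lt] at h1
  have h2 : (p : ℤ) ∣ 1 := ⟨_, h1.symm⟩
  have h3 : p ∣ 1 := by exact_mod_cast h2
  exact hp.one_lt.ne' (Nat.dvd_one.1 h3)

/-- a prime number is not a `p`-th power in an abelian extension of the rationals, `p` odd -/
theorem ab_no_root (k : Type*) [Field k] {p : ℕ} (hp : p.Prime) (hp2 : p ≠ 2) (hpk : (p : k) ≠ 0) (a : k) (ha : a ≠ 0)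
    (hka : ∀ b : k, b ^ p ≠ a) (hcyc : Irreducible (cyclotomic p k)) (K : Type*) [Field K] [Algebra k K]
    [IsAbelianGalois k K] (b : K) : b ^ p ≠ algebraMap k K a := by
  intro h
  have ha0 : algebraMap k K a ≠ 0 := by simpa using ha
  have hb0 : b ≠ 0 := by
    rintro rfl
    rw [zero_pow hp.ne_zero] at h
    exact ha0 h.symm
  have hirr : Irreducible ((X : k[X]) ^ p - C a) := X_pow_sub_C_irreducible_of_prime hp hka
  have hmon : ((X : k[X]) ^ p - C a).Monic := monic_X_pow_sub_C _ hp.ne_zero
  have hev : aeval b ((X : k[X]) ^ p - C a) = 0 := by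
    rw [map_sub, map_pow, aeval_X, aeval_C, h, sub_self]
  have hmin : minpoly k b = (X : k[X]) ^ p - C a := (minpoly.eq_of_irreducible_of_monic hirr hev hmon).symm
  have hint : IsIntegral k b := Algebra.IsIntegral.isIntegral b
  -- the subfield
  set F : IntermediateField k K := k⟮b⟯ with hF
  have hbF : b ∈ F := mem_adjoin_simple_self k b
  have hfd : FiniteDimensional k F := adjoin.finiteDimensional hint
  have hfr : Module.finrank k F = p := by
    rw [hF, adjoin.finrank hint, hmin, natDegree_X_pow_sub_C]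
  have hab : IsAbelianGalois k F := inferInstance
  have hgal : IsGalois k F := hab.toIsGalois
  have hnor : Normal k F := hgal.to_normal
  have hsp := hnor.splits (⟨b, hbF⟩ : F)
  have hminF : minpoly k (⟨b, hbF⟩ : F) = (X : k[X]) ^ p - C a := by
    rw [← hmin]
    exact (minpoly.algebraMap_eq (algebraMap F K).injective (⟨b, hbF⟩ : F)).symm
  rw [hminF] at hsp
  -- there is another root
  have hsep : ((X : k[X]) ^ p - C a).Separable := separable_X_pow_sub_C a hpk ha
  have hcard : ((X : k[X]) ^ p - C a).rootSet F = ((((X : k[X]) ^ p - C a).rootSet F).toFinset : Set F) := by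
    simp
  have hcr : Fintype.card (((X : k[X]) ^ p - C a).rootSet F) = p := by
    rw [card_rootSet_eq_natDegree hsep hsp, natDegree_X_pow_sub_C]
  obtain ⟨c, hc, hcb⟩ : ∃ c : F, c ^ p = algebraMap k F a ∧ c ≠ ⟨b, hbF⟩ := by
    have h1 : 1 < Fintype.card (((X : k[X]) ^ p - C a).rootSet F) := by rw [hcr]; exact hp.one_lt
    have hbr : (⟨b, hbF⟩ : F) ∈ ((X : k[X]) ^ p - C a).rootSet F := by
      rw [mem_rootSet]
      refine ⟨hmon.ne_zero, ?_⟩
      rw [map_sub, map_pow, aeval_X, aeval_C, sub_eq_zero]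
      exact Subtype.ext h
    obtain ⟨⟨c, hc⟩, hne⟩ := Fintype.exists_ne_of_one_lt_card h1 ⟨_, hbr⟩
    refine ⟨c, ?_, fun h => hne (Subtype.ext h)⟩
    rw [mem_rootSet] at hc
    have h2 := hc.2
    rw [map_sub, map_pow, aeval_X, aeval_C, sub_eq_zero] at h2
    exact h2
  -- a root of unity
  set ω : K := (c : K) / b with hω
  have hωF : ω ∈ F := F.div_mem c.2 hbF
  have hcK : (c : K) ^ p = algebraMap k K a := by
    exact congrArg (fun x : F => (x : K)) hc
  have hω1 : ω ^ p = 1 := by
    rw [hω, div_pow, hcK, h, div_self ha0]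
  have hωne : ω ≠ 1 := by
    intro h1
    apply hcb
    apply Subtype.ext
    show (c : K) = b
    rw [hω, div_eq_one_iff_eq hb0] at h1
    exact h1
  have hprim : IsPrimitiveRoot ω p := by
    have := IsPrimitiveRoot.orderOf ω
    rwa [orderOf_eq_prime hω1 hωne (hp := ⟨hp⟩)] at this
  have hdeg : Module.finrank k k⟮ω⟯ = p - 1 := by
    have hi : IsIntegral k ω := Algebra.IsIntegral.isIntegral ω
    have : NeZero ((p : ℕ) : k) := ⟨hpk⟩
    rw [adjoin.finrank hi, ← hprim.minpoly_eq_cyclotomic_of_irreducible hcyc,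
      natDegree_cyclotomic, Nat.totient_prime hp]
  have hle : k⟮ω⟯ ≤ F := adjoin_simple_le_iff.2 hωF
  have hdvd : p - 1 ∣ p := by
    have h1 := finrank_dvd_of_le_right hle
    rwa [hdeg, hfr] at h1
  have h3 : p - 1 ∣ 1 := by
    have h4 : p = (p - 1) + 1 := by have := hp.pos; omega
    have h5 : p - 1 ∣ (p - 1) + 1 := by rw [← h4]; exact hdvd
    exact (Nat.dvd_add_right dvd_rfl).1 h5
  have h4 := Nat.dvd_one.1 h3
  have := hp.two_le
  omega

end Pool.Agent.Q202.RT
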