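import Pool.Agent.Q202.RT.Ex

/-!
# The Galois group of the field generated by the `N`-th roots of unity and a `p`-th root of a prime number
-/

set_option autoImplicit false

namespace Pool.Agent.Q202.RT

open NumberField Polynomial IntermediateField

theorem finrank_ge (k : Type*) [Field k] [CharZero k] {L : Type*} [Field L] [Algebra k L] [FiniteDimensional k L]
    {N p : ℕ} (hN : N ≠ 0) (hp : p.Prime) (hp2 : p ≠ 2) (a : k) (ha : a ≠ 0)
    (hka : ∀ b : k, b ^ p ≠ a) (hcyc : Irreducible (cyclotomic p k)) (hcycN : Irreducible (cyclotomic N k))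
    {ζ α : L} (hζ : IsPrimitiveRoot ζ N) (hα : α ^ p = algebraMap k L a) :
    N.totient * p ≤ Module.finrank k L := by
  have : NeZero N := ⟨hN⟩
  have hpk : (p : k) ≠ 0 := by exact_mod_cast hp.ne_zero
  set K : IntermediateField k L := k⟮ζ⟯ with hK
  have hcy : IsCyclotomicExtension {N} k K := hζ.intermediateField_adjoin_isCyclotomicExtension k
  have hab : IsAbelianGalois k K := IsCyclotomicExtension.isAbelianGalois {N} k K
  have h1 : Module.finrank k K = N.totient := IsCyclotomicExtension.finrank K hcycN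
  have h2 : Irreducible ((X : K[X]) ^ p - C (algebraMap k K a)) :=
    X_pow_sub_C_irreducible_of_prime hp (ab_no_root k hp hp2 hpk a ha hka hcyc K)
  have h3 : minpoly K α = (X : K[X]) ^ p - C (algebraMap k K a) := by
    symm
    apply minpoly.eq_of_irreducible_of_monic h2 _ (monic_X_pow_sub_C _ hp.ne_zero)
    rw [map_sub, map_pow, aeval_X, aeval_C, hα, ← IsScalarTower.algebraMap_apply, sub_self]
  have h4 : p ≤ Module.finrank K L := by
    have := minpoly.natDegree_le (A := K) α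
    rwa [h3, natDegree_X_pow_sub_C] at this
  rw [← Module.finrank_mul_finrank k K L, h1]
  exact Nat.mul_le_mul_left _ h4

section

variable {L : Type} [Field L] [NumberField L] [IsGalois ℚ L] {N p a : ℕ}

theorem card_ge (hN : N ≠ 0) (hp : p.Prime) (hp2 : p ≠ 2) (ha : a ≠ 0) (hka : ∀ b : ℚ, b ^ p ≠ (a : ℚ)) {ζ α : L} (hζ : IsPrimitiveRoot ζ N)
    (hα : α ^ p = a) : N.totient * p ≤ Nat.card Gal(L/ℚ) := by
  rw [IsGalois.card_aut_eq_finrank]
  have ha0 : (a : ℚ) ≠ 0 := by exact_mod_cast ha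
  refine finrank_ge ℚ hN hp hp2 (a : ℚ) ha0 hka (cyclotomic.irreducible_rat hp.pos)
    (cyclotomic.irreducible_rat (Nat.pos_of_ne_zero hN)) hζ (α := α) ?_
  rw [hα, map_natCast]

/-- every pair of a unit modulo `N` and a `p`-th root of unity comes from the Galois group -/
theorem exists_sigma (hN : N ≠ 0) (hp : p.Prime) (hp2 : p ≠ 2) (hpN : p ∣ N) (ha : a ≠ 0) (hka : ∀ b : ℚ, b ^ p ≠ (a : ℚ)) {ζ α : L}
    (hζ : IsPrimitiveRoot ζ N) (hα : α ^ p = a) (hgen : ∀ σ : Gal(L/ℚ), σ ζ = ζ → σ α = α → σ = 1) :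
    ∃ F : Gal(L/ℚ) ≃ (ZMod N)ˣ × rootsOfUnity p L,
      ∀ σ : Gal(L/ℚ), σ ζ = ζ ^ ((F σ).1 : ZMod N).val ∧ σ α = ((F σ).2 : Lˣ) * α := by
  classical
  have : NeZero N := ⟨hN⟩
  have : NeZero p := ⟨hp.ne_zero⟩
  have hα0 : α ≠ 0 := by
    rintro rfl
    rw [zero_pow hp.ne_zero] at hα
    exact ha (by exact_mod_cast hα.symm)
  have hz : ∀ σ : Gal(L/ℚ), ∃ u : (ZMod N)ˣ, σ ζ = ζ ^ (u : ZMod N).val := by
    intro σ
    exact ⟨hζ.autToPow ℚ σ, (hζ.autToPow_spec ℚ σ).symm⟩
  have ha' : ∀ σ : Gal(L/ℚ), ∃ w : rootsOfUnity p L, σ α = (w : Lˣ) * α := by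
    intro σ
    have h1 : (σ α / α) ^ p = 1 := by
      rw [div_pow, ← map_pow, hα, map_natCast, div_self]
      exact_mod_cast ha
    refine ⟨rootsOfUnity.mkOfPowEq (σ α / α) h1, ?_⟩
    rw [rootsOfUnity.val_mkOfPowEq_coe, div_mul_cancel₀ _ hα0]
  choose u hu using hz
  choose w hw using ha'
  have hinj : Function.Injective fun σ : Gal(L/ℚ) => (u σ, w σ) := by
    intro σ τ h
    have e1 : u σ = u τ := congrArg Prod.fst h
    have e2 : w σ = w τ := congrArg Prod.snd h
    have h1 : σ ζ = τ ζ := by rw [hu, hu, e1]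
    have h2 : σ α = τ α := by rw [hw, hw, e2]
    have h3 := hgen (τ⁻¹ * σ) (by
      rw [AlgEquiv.mul_apply, h1, ← AlgEquiv.mul_apply, inv_mul_cancel, AlgEquiv.one_apply]) (by
      rw [AlgEquiv.mul_apply, h2, ← AlgEquiv.mul_apply, inv_mul_cancel, AlgEquiv.one_apply])
    exact (inv_mul_eq_one.1 h3).symm
  have hcard : Nat.card ((ZMod N)ˣ × rootsOfUnity p L) ≤ Nat.card Gal(L/ℚ) := by
    have hpr : IsPrimitiveRoot (ζ ^ (N / p)) p := hζ.pow (Nat.pos_of_ne_zero hN) (Nat.div_mul_cancel hpN).symm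
    have h1 : Nat.card (rootsOfUnity p L) = p := hpr.card_rootsOfUnity
    rw [Nat.card_prod, h1, Nat.card_eq_fintype_card, ZMod.card_units_eq_totient]
    exact card_ge hN hp hp2 ha hka hζ hα
  have hbij : Function.Bijective fun σ : Gal(L/ℚ) => (u σ, w σ) := by
    have hf : Finite ((ZMod N)ˣ × rootsOfUnity p L) := inferInstance
    have hg : Finite Gal(L/ℚ) := inferInstance
    exact (Nat.bijective_iff_injective_and_card _).2 ⟨hinj,
      le_antisymm (Nat.card_le_card_of_injective _ hinj) hcard⟩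
  exact ⟨Equiv.ofBijective _ hbij, fun σ => ⟨hu σ, hw σ⟩⟩

end

end Pool.Agent.Q202.RT
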