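import Pool.Agent.Q202.RT.Dn

/-!
# The relative density of the primes modulo which a given prime is a `p`-th power
-/

set_option autoImplicit false

namespace Pool.Agent.Q202.RT

open NumberField Filter Topology Finset Pool.Agent.W401.Cheb

open Classical in
/-- **Relative density.** Let `A` be a set of residue classes modulo `N` which are `1` modulo the odd prime `p ∣ N`. A given number
`a ≥ 1` which is not a `p`-th power is a `p`-th power modulo the proportion `1 / p` of the primes in these classes. -/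
theorem dens_main (N p a : ℕ) (hN : N ≠ 0) (hp : p.Prime) (hp2 : p ≠ 2) (hpN : p ∣ N) (ha : a ≠ 0)
    (hka : ∀ b : ℚ, b ^ p ≠ (a : ℚ))
    (A : Finset (ZMod N)ˣ) (hA : ∀ u ∈ A, ZMod.castHom hpN (ZMod p) (u : ZMod N) = 1) :
    Tendsto (M fun q => if ∃ u ∈ A, ((u : (ZMod N)ˣ) : ZMod N) = (q : ZMod N) then 1 else 0) atTop
      (𝓝 ((A.card : ℝ) / N.totient)) ∧
    Tendsto (M fun q => if (∃ u ∈ A, ((u : (ZMod N)ˣ) : ZMod N) = (q : ZMod N)) ∧ ∃ c : ZMod q, c ^ p = (a : ZMod q)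
      then 1 else 0) atTop (𝓝 ((A.card : ℝ) / (N.totient * p))) := by
  have : NeZero N := ⟨hN⟩
  have hNpos : 0 < N := Nat.pos_of_ne_zero hN
  obtain ⟨L, i1, i2, i3, ζ, α, hζ, hα, hgen⟩ := exists_fld N p a hN hp hpN ha
  obtain ⟨F, hF⟩ := exists_sigma hN hp hp2 hpN ha hka hζ hα hgen
  have : NeZero p := ⟨hp.ne_zero⟩
  have hα0 : α ≠ 0 := by
    rintro rfl
    rw [zero_pow hp.ne_zero] at hα
    exact ha (by exact_mod_cast hα.symm)
  have hpr : IsPrimitiveRoot (ζ ^ (N / p)) p := hζ.pow hNpos (Nat.div_mul_cancel hpN).symm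
  have hmu : Nat.card (rootsOfUnity p L) = p := hpr.card_rootsOfUnity
  have hfin : Finite (rootsOfUnity p L) := Nat.finite_of_card_ne_zero (by rw [hmu]; exact hp.ne_zero)
  have : Fintype (rootsOfUnity p L) := Fintype.ofFinite _
  have hmu' : Fintype.card (rootsOfUnity p L) = p := by rw [← Nat.card_eq_fintype_card, hmu]
  have hG : Nat.card Gal(L/ℚ) = N.totient * p := by
    rw [Nat.card_congr F, Nat.card_prod, hmu, Nat.card_eq_fintype_card, ZMod.card_units_eq_totient]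
  have hφ : (N.totient : ℝ) ≠ 0 := by exact_mod_cast (Nat.totient_pos.2 hNpos).ne'
  have hp0 : (p : ℝ) ≠ 0 := by exact_mod_cast hp.ne_zero
  -- the two sets of Frobenius elements
  set C1 : Finset Gal(L/ℚ) := univ.filter fun σ => (F σ).1 ∈ A with hC1
  set C2 : Finset Gal(L/ℚ) := univ.filter fun σ => (F σ).1 ∈ A ∧ (F σ).2 = 1 with hC2
  have hc1 : C1.card = A.card * p := by
    have e1 : C1.card = (A ×ˢ (univ : Finset (rootsOfUnity p L))).card := by
      apply card_bij (fun σ _ => F σ)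
      · intro σ hσ
        rw [mem_product]
        exact ⟨(mem_filter.1 hσ).2, mem_univ _⟩
      · intro σ _ τ _ h
        exact F.injective h
      · intro b hb
        refine ⟨F.symm b, ?_, F.apply_symm_apply b⟩
        rw [hC1, mem_filter, F.apply_symm_apply]
        exact ⟨mem_univ _, (mem_product.1 hb).1⟩
    rw [e1, card_product, card_univ, hmu']
  have hc2 : C2.card = A.card := by
    apply card_bij (fun σ _ => (F σ).1)
    · intro σ hσ
      exact (mem_filter.1 hσ).2.1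
    · intro σ hσ τ hτ h
      apply F.injective
      exact Prod.ext h ((mem_filter.1 hσ).2.2.trans (mem_filter.1 hτ).2.2.symm)
    · intro b hb
      refine ⟨F.symm (b, 1), ?_, by rw [F.apply_symm_apply]⟩
      rw [hC2, mem_filter, F.apply_symm_apply]
      exact ⟨mem_univ _, hb, rfl⟩
  have key1 : ∀ (q : ℕ) [Fact q.Prime], ¬ q ∣ N * a → ∀ (φ : 𝓞 L →+* AlgebraicClosure (ZMod q)) (σ : Gal(L/ℚ)),
      HasFrob q φ σ → (((F σ).1 : (ZMod N)ˣ) : ZMod N) = (q : ZMod N) := by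
    intro q _ hq φ σ hσ
    have h1 := frob_zeta hN hζ (fun h => hq (h.mul_right _)) φ hσ (hF σ).1
    rw [← h1, ZMod.natCast_val, ZMod.cast_id]
  have key2 : ∀ (q : ℕ) [Fact q.Prime], ¬ q ∣ N * a → ∀ (φ : 𝓞 L →+* AlgebraicClosure (ZMod q)) (σ : Gal(L/ℚ)),
      HasFrob q φ σ → ((F σ).1 ∈ A ↔ ∃ u ∈ A, ((u : (ZMod N)ˣ) : ZMod N) = (q : ZMod N)) := by
    intro q _ hq φ σ hσ
    have h1 := key1 q hq φ σ hσ
    constructor
    · intro h
      exact ⟨_, h, h1⟩
    · rintro ⟨u, hu, hu2⟩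
      have : (F σ).1 = u := Units.ext (h1.trans hu2.symm)
      rw [this]
      exact hu
  have key3 : ∀ (q : ℕ) [Fact q.Prime], ¬ q ∣ N * a → ∀ (φ : 𝓞 L →+* AlgebraicClosure (ZMod q)) (σ : Gal(L/ℚ)),
      HasFrob q φ σ → (F σ).1 ∈ A → ((F σ).2 = 1 ↔ ∃ c : ZMod q, c ^ p = (a : ZMod q)) := by
    intro q hq' hq φ σ hσ hu
    have h1 := key1 q hq φ σ hσ
    have h2 := hA _ hu
    rw [h1, map_natCast] at h2
    have h3 : p ∣ q - 1 := by
      have h4 : ((q - 1 : ℕ) : ZMod p) = 0 := by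
        rw [Nat.cast_sub hq'.out.one_le, h2, Nat.cast_one, sub_self]
      exact (ZMod.natCast_eq_zero_iff _ _).1 h4
    have hw : (((F σ).2 : Lˣ) : L) ^ p = 1 := by
      have h5 : ((F σ).2 : Lˣ) ^ p = 1 := (mem_rootsOfUnity p _).1 (F σ).2.2
      rw [← Units.val_pow_eq_pow_val, h5, Units.val_one]
    rw [← frob_alpha hp hα (fun h => hq ((h.trans hpN).mul_right _)) (fun h => hq (h.mul_left _)) h3 φ hσ hw (hF σ).2]
    constructor
    · intro h
      rw [h]
      simp
    · intro h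
      exact Subtype.ext (Units.ext h)
  constructor
  · have h := dens_of_frob L C1 (fun q => ∃ u ∈ A, ((u : (ZMod N)ˣ) : ZMod N) = (q : ZMod N)) (N * a)
      (Nat.mul_pos hNpos (Nat.pos_of_ne_zero ha)) (fun q _ hq φ σ hσ => by
        rw [hC1, mem_filter]
        exact ⟨fun h => (key2 q hq φ σ hσ).1 h.2, fun h => ⟨mem_univ _, (key2 q hq φ σ hσ).2 h⟩⟩)
    have e : ((C1.card : ℝ) / Nat.card Gal(L/ℚ)) = (A.card : ℝ) / N.totient := by
      rw [hG, hc1]
      push_cast
      field_simp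
    rwa [e] at h
  · have h := dens_of_frob L C2 (fun q => (∃ u ∈ A, ((u : (ZMod N)ˣ) : ZMod N) = (q : ZMod N)) ∧
        ∃ c : ZMod q, c ^ p = (a : ZMod q)) (N * a)
      (Nat.mul_pos hNpos (Nat.pos_of_ne_zero ha)) (fun q _ hq φ σ hσ => by
        rw [hC2, mem_filter]
        constructor
        · rintro ⟨-, h1, h2⟩
          exact ⟨(key2 q hq φ σ hσ).1 h1, (key3 q hq φ σ hσ h1).1 h2⟩
        · rintro ⟨h1, h2⟩
          have h3 := (key2 q hq φ σ hσ).2 h1
          exact ⟨mem_univ _, h3, (key3 q hq φ σ hσ h3).2 h2⟩)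
    have e : ((C2.card : ℝ) / Nat.card Gal(L/ℚ)) = (A.card : ℝ) / (N.totient * p) := by
      rw [hG, hc2]
      push_cast
      rfl
    rwa [e] at h

end Pool.Agent.Q202.RT
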