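import Pool.Agent.Q202.RT.Eng
import Pool.Agent.Q315.FM.Cnt
import Pool.Agent.TH146.FM.Pow

/-!
# The determinant of a pair of primes
-/

set_option autoImplicit false

namespace Pool.Agent.Q202.RT

open Finset Filter Topology Pool.Agent.W401.Cheb
open Pool.Agent.W569.TG (lk)
open Pool.Agent.Q315.FM (clp mem_clp clp_tendsto)

section
variable {p : ℕ} [hpF : Fact p.Prime]

/-- characters whose kernels are the `p`-th powers -/
def Kr (χ : ∀ j : ℕ, (ZMod j)ˣ →* Multiplicative (ZMod p)) : Prop :=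
  ∀ j : ℕ, j.Prime → p ∣ j - 1 → (∃ x, χ j x ≠ 1) ∧ ∀ x, χ j x = 1 ↔ x ^ ((j - 1) / p) = 1

/-- the level of a prime -/
def lv (p l : ℕ) : ZMod p := (((l - 1) / p : ℕ) : ZMod p)

/-- the determinant -/
noncomputable def Dt (χ : ∀ j : ℕ, (ZMod j)ˣ →* Multiplicative (ZMod p)) (k l : ℕ) : ZMod p :=
  lv p l * lk χ p k * lk χ k l - lv p k * lk χ l k * lk χ p l

theorem lv_congr {l l' : ℕ} (hl : 1 ≤ l) (hl' : 1 ≤ l') (h : p ∣ l - 1) (h' : p ∣ l' - 1)
    (he : (l : ZMod (p ^ 2)) = (l' : ZMod (p ^ 2))) : lv p l = lv p l' := by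
  have hp : p.Prime := hpF.out
  obtain ⟨a, ha⟩ := h
  obtain ⟨a', ha'⟩ := h'
  have e1 : (l - 1) / p = a := by rw [ha, Nat.mul_div_cancel_left _ hp.pos]
  have e2 : (l' - 1) / p = a' := by rw [ha', Nat.mul_div_cancel_left _ hp.pos]
  unfold lv
  rw [e1, e2, ZMod.natCast_eq_natCast_iff]
  rw [ZMod.natCast_eq_natCast_iff] at he
  have h3 : p * a + 1 ≡ p * a' + 1 [MOD p ^ 2] := by
    rw [← ha, ← ha', Nat.sub_add_cancel hl, Nat.sub_add_cancel hl']
    exact he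
  have h4 : p * a ≡ p * a' [MOD p * p] := by
    have := Nat.ModEq.add_right_cancel' 1 h3
    rwa [pow_two] at this
  exact Nat.ModEq.mul_left_cancel' hp.ne_zero h4

theorem lk_congr (χ : ∀ j : ℕ, (ZMod j)ˣ →* Multiplicative (ZMod p)) {l l' k : ℕ} (hl : l.Coprime k) (hl' : l'.Coprime k)
    (he : (l : ZMod k) = (l' : ZMod k)) : lk χ l k = lk χ l' k := by
  unfold lk
  rw [dif_pos hl, dif_pos hl']
  congr 2
  exact Units.ext (by rw [ZMod.coe_unitOfCoprime, ZMod.coe_unitOfCoprime, he])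

theorem lv_ne_zero {l : ℕ} (h : p ∣ l - 1) (h2 : ¬ p ^ 2 ∣ l - 1) : lv p l ≠ 0 := by
  have hp : p.Prime := hpF.out
  unfold lv
  rw [Ne, ZMod.natCast_eq_zero_iff]
  intro h3
  apply h2
  rw [pow_two, ← Nat.mul_div_cancel' h]
  exact Nat.mul_dvd_mul_left p h3

theorem val_pow_valuation {k s t : ℕ} (hp : p.Prime) (hk : k.Prime) (hkp : k ≠ p) :
    padicValNat k (k ^ s * p ^ t) = s := by
  have : Fact k.Prime := ⟨hk⟩
  rw [padicValNat.mul (pow_ne_zero _ hk.ne_zero) (pow_ne_zero _ hp.ne_zero), padicValNat.pow, padicValNat.pow,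
    padicValNat_self, padicValNat_primes hkp, mul_one, mul_zero, add_zero]

theorem not_dvd_val {s : ZMod p} (hs : s ≠ 0) : ¬ p ∣ s.val := by
  intro h
  apply hs
  rw [← ZMod.natCast_zmod_val s]
  exact (ZMod.natCast_eq_zero_iff _ _).2 h

open Classical in
/-- **The pairs with vanishing determinant.** Let `k` be a prime which is `1` modulo `p` and modulo which `p` is not a `p`-th power.
The determinant of `(k, l)` vanishes for the proportion `1 / p` of the primes `l` only. -/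
theorem bad_pair (hp2 : p ≠ 2) (χ : ∀ j : ℕ, (ZMod j)ˣ →* Multiplicative (ZMod p)) (hχ : Kr χ) (k : ℕ) (hk : k.Prime)
    (hpk : p ∣ k - 1) (hkp : lk χ p k ≠ 0) (ε : ℝ) (hε : 0 < ε) :
    ∀ᶠ x : ℕ in atTop, (((clp p 1 x).filter fun l => Dt χ k l = 0).card : ℝ) ≤ (1 / p + ε) * ((clp p 1 x).card : ℝ) := by
  have hp : p.Prime := hpF.out
  have hne : k ≠ p := by
    rintro rfl
    have := Nat.le_of_dvd (by have := hk.two_le; omega) hpk
    have := hk.two_le
    omega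
  set N : ℕ := p ^ 2 * k with hN
  have hN0 : N ≠ 0 := mul_ne_zero (pow_ne_zero _ hp.ne_zero) hk.ne_zero
  have : NeZero N := ⟨hN0⟩
  have hpN : p ∣ N := (dvd_pow_self p two_ne_zero).mul_right _
  have hp2N : p ^ 2 ∣ N := Dvd.intro _ rfl
  have hkN : k ∣ N := Dvd.intro_left _ rfl
  set A : Finset (ZMod N)ˣ := univ.filter fun u => ZMod.castHom hpN (ZMod p) (u : ZMod N) = 1 ∧
    ZMod.castHom hp2N (ZMod (p ^ 2)) (u : ZMod N) ≠ 1 with hA
  -- the classes
  have hcop : ∀ (q : ℕ) (u : (ZMod N)ˣ), (u : ZMod N) = (q : ZMod N) → q.Coprime N := by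
    intro q u h
    rw [← ZMod.isUnit_iff_coprime, ← h]
    exact u.isUnit
  have hcl : ∀ q : ℕ, q.Prime → (∃ u ∈ A, ((u : (ZMod N)ˣ) : ZMod N) = (q : ZMod N)) →
      p ∣ q - 1 ∧ ¬ p ^ 2 ∣ q - 1 ∧ q ≠ k := by
    rintro q hq ⟨u, hu, huq⟩
    rw [hA, mem_filter, huq, map_natCast, map_natCast] at hu
    refine ⟨?_, ?_, ?_⟩
    · have h1 : ((q - 1 : ℕ) : ZMod p) = 0 := by rw [Nat.cast_sub hq.one_le, hu.2.1, Nat.cast_one, sub_self]
      exact (ZMod.natCast_eq_zero_iff _ _).1 h1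
    · intro h
      apply hu.2.2
      have h1 : ((q - 1 : ℕ) : ZMod (p ^ 2)) = 0 := (ZMod.natCast_eq_zero_iff _ _).2 h
      rw [Nat.cast_sub hq.one_le, Nat.cast_one, sub_eq_zero] at h1
      exact h1
    · rintro rfl
      have h1 := hcop q u huq
      have h2 : q ∣ Nat.gcd q N := Nat.dvd_gcd dvd_rfl hkN
      rw [h1] at h2
      exact hq.one_lt.ne' (Nat.dvd_one.1 h2)
  have hcl' : ∀ q : ℕ, q.Prime → p ∣ q - 1 → ¬ p ^ 2 ∣ q - 1 → q ≠ k →
      (∃ u ∈ A, ((u : (ZMod N)ˣ) : ZMod N) = (q : ZMod N)) := by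
    intro q hq h1 h2 h3
    have hqp : q ≠ p := by
      rintro rfl
      have := Nat.le_of_dvd (by have := hq.two_le; omega) h1
      have := hq.two_le
      omega
    have hc : q.Coprime N := by
      rw [hN]
      exact Nat.Coprime.mul_right (((Nat.coprime_primes hq hp).2 hqp).pow_right 2) ((Nat.coprime_primes hq hk).2 h3)
    refine ⟨ZMod.unitOfCoprime q hc, ?_, ZMod.coe_unitOfCoprime q hc⟩
    rw [hA, mem_filter, ZMod.coe_unitOfCoprime, map_natCast, map_natCast]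
    refine ⟨mem_univ _, ?_, fun h => h2 ?_⟩
    · have h4 := (ZMod.natCast_eq_zero_iff _ _).2 h1
      rw [Nat.cast_sub hq.one_le, Nat.cast_one, sub_eq_zero] at h4
      exact h4
    · apply (ZMod.natCast_eq_zero_iff _ _).1
      rw [Nat.cast_sub hq.one_le, h, Nat.cast_one, sub_self]
  have hAp : ∀ u ∈ A, ZMod.castHom hpN (ZMod p) (u : ZMod N) = 1 := fun u hu => (mem_filter.1 hu).2.1
  have hct := clp_tendsto p 1 hp le_rfl
  have hAne : A.Nonempty := by
    obtain ⟨x, hx⟩ := (hct.eventually_ge_atTop 2).exists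
    have h1 : 1 < (clp p 1 x).card := by
      have : (2 : ℝ) ≤ ((clp p 1 x).card : ℝ) := hx
      exact_mod_cast this
    obtain ⟨q, hq, hqk⟩ := exists_mem_ne h1 k
    obtain ⟨-, h2, h3, h4⟩ := mem_clp.1 hq
    rw [pow_one] at h3
    obtain ⟨u, hu, -⟩ := hcl' q h2 h3 (by simpa using h4) hqk
    exact ⟨u, hu⟩
  -- the numbers
  set rep : (ZMod N)ˣ → ℕ := fun r => if h : ∃ q : ℕ, q.Prime ∧ (r : ZMod N) = (q : ZMod N) then h.choose else 0 with hrep
  have hrep' : ∀ (r : (ZMod N)ˣ) (q : ℕ), q.Prime → (r : ZMod N) = (q : ZMod N) →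
      (rep r).Prime ∧ (r : ZMod N) = (rep r : ZMod N) := by
    intro r q hq hr
    have h : ∃ q : ℕ, q.Prime ∧ (r : ZMod N) = (q : ZMod N) := ⟨q, hq, hr⟩
    rw [hrep]
    simp only
    rw [dif_pos h]
    exact h.choose_spec
  set s : (ZMod N)ˣ → ZMod p := fun r => if lv p (rep r) * lk χ p k = 0 then 1 else lv p (rep r) * lk χ p k with hs
  set t : (ZMod N)ˣ → ZMod p := fun r => lv p k * lk χ (rep r) k with ht
  have hs0 : ∀ r, s r ≠ 0 := by
    intro r
    rw [hs]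
    simp only
    split_ifs with h
    · exact one_ne_zero
    · exact h
  set b : (ZMod N)ˣ → ℕ := fun r => k ^ (s r).val * p ^ (-(t r)).val with hb
  have hb0 : ∀ r ∈ A \ (∅ : Finset (ZMod N)ˣ), b r ≠ 0 := fun r _ =>
    mul_ne_zero (pow_ne_zero _ hk.ne_zero) (pow_ne_zero _ hp.ne_zero)
  have hbr : ∀ r ∈ A \ (∅ : Finset (ZMod N)ˣ), ∀ c : ℚ, c ^ p ≠ (b r : ℚ) := by
    intro r hr c
    refine rat_no_root' hp (hb0 r hr) hk ?_ c
    rw [hb]
    simp only
    rw [val_pow_valuation hp hk hne]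
    exact not_dvd_val (hs0 r)
  have heng := engine N p hN0 hp hp2 hpN A ∅ (empty_subset _) hAne hAp b hb0 hbr (fun q => Dt χ k q = 0) (by
    intro q hq r hr hrq hD
    have hrA : r ∈ A := (mem_sdiff.1 hr).1
    obtain ⟨h1, h2, h3⟩ := hcl q hq ⟨r, hrA, hrq⟩
    obtain ⟨h4, h5⟩ := hrep' r q hq hrq
    obtain ⟨h6, h7, h8⟩ := hcl (rep r) h4 ⟨r, hrA, h5⟩
    have he : (q : ZMod N) = (rep r : ZMod N) := hrq.symm.trans h5
    have hmod := (ZMod.natCast_eq_natCast_iff _ _ _).1 he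
    have e1 : lv p q = lv p (rep r) := lv_congr hq.one_le h4.one_le h1 h6
      ((ZMod.natCast_eq_natCast_iff _ _ _).2 (hmod.of_dvd hp2N))
    have e2 : lk χ q k = lk χ (rep r) k := lk_congr χ ((Nat.coprime_primes hq hk).2 h3) ((Nat.coprime_primes h4 hk).2 h8)
      ((ZMod.natCast_eq_natCast_iff _ _ _).2 (hmod.of_dvd hkN))
    have e3 : s r = lv p (rep r) * lk χ p k := by
      rw [hs]
      simp only
      rw [if_neg (mul_ne_zero (lv_ne_zero h6 h7) hkp)]
    have hpq : p ≠ q := by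
      rintro rfl
      have := Nat.le_of_dvd (by have := hq.two_le; omega) h1
      have := hq.two_le
      omega
    have e4 : ((s r).val : ZMod p) * lk χ k q + ((-(t r)).val : ZMod p) * lk χ p q = 0 := by
      rw [ZMod.natCast_zmod_val, ZMod.natCast_zmod_val, e3, ← e1]
      have e5 : t r = lv p k * lk χ q k := by rw [ht, e2]
      rw [e5]
      have hD' : lv p q * lk χ p k * lk χ k q - lv p k * lk χ q k * lk χ p q = 0 := hD
      linear_combination hD'
    exact Pool.Agent.TH146.FM.lk_pair hq h1 hk hp (Ne.symm h3) hpq (hχ q hq h1).2 _ _ e4) (ε / 2) (by positivity)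
  filter_upwards [heng, hct.eventually_ge_atTop (2 / ε)] with x hx1 hx2
  have hAc : (0 : ℝ) < A.card := by exact_mod_cast hAne.card_pos
  have e0 : (((∅ : Finset (ZMod N)ˣ).card : ℝ) + ((A.card : ℝ) - ((∅ : Finset (ZMod N)ˣ).card : ℝ)) / p) / A.card = 1 / p := by
    rw [card_empty, Nat.cast_zero, zero_add, sub_zero]
    field_simp
  rw [e0] at hx1
  have hle : ((((pr x).filter fun q : ℕ => ∃ u ∈ A, ((u : (ZMod N)ˣ) : ZMod N) = (q : ZMod N)).card : ℕ) : ℝ) ≤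
      (clp p 1 x).card := by
    have : ((pr x).filter fun q : ℕ => ∃ u ∈ A, ((u : (ZMod N)ˣ) : ZMod N) = (q : ZMod N)) ⊆ clp p 1 x := by
      intro q hq
      rw [mem_filter, mem_pr] at hq
      obtain ⟨h1, h2, -⟩ := hcl q hq.1.2 hq.2
      rw [mem_clp, pow_one]
      exact ⟨hq.1.1, hq.1.2, h1, by simpa using h2⟩
    exact_mod_cast card_le_card this
  have hsub : ((clp p 1 x).filter fun l => Dt χ k l = 0) ⊆
      ((pr x).filter fun q : ℕ => (∃ u ∈ A, ((u : (ZMod N)ˣ) : ZMod N) = (q : ZMod N)) ∧ Dt χ k q = 0) ∪ {k} := by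
    intro q hq
    rw [mem_filter, mem_clp, pow_one] at hq
    obtain ⟨⟨h1, h2, h3, h4⟩, h5⟩ := hq
    by_cases hqk : q = k
    · exact mem_union_right _ (mem_singleton.2 hqk)
    · refine mem_union_left _ (mem_filter.2 ⟨mem_pr.2 ⟨h1, h2⟩, hcl' q h2 h3 (by simpa using h4) hqk, h5⟩)
  have hsub' : (((clp p 1 x).filter fun l => Dt χ k l = 0).card : ℝ) ≤
      ((((pr x).filter fun q : ℕ => (∃ u ∈ A, ((u : (ZMod N)ˣ) : ZMod N) = (q : ZMod N)) ∧ Dt χ k q = 0).card : ℕ) : ℝ) + 1 := by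
    have h1 := (card_le_card hsub).trans (card_union_le _ _)
    rw [card_singleton] at h1
    exact_mod_cast h1
  have hε2 : 1 ≤ ε / 2 * ((clp p 1 x).card : ℝ) := by
    have : 2 / ε ≤ ((clp p 1 x).card : ℝ) := hx2
    rw [div_le_iff₀ hε] at this
    linarith
  have h3 : (1 / (p : ℝ) + ε / 2) * ((((pr x).filter fun q : ℕ => ∃ u ∈ A, ((u : (ZMod N)ˣ) : ZMod N) = (q : ZMod N)).card : ℕ) : ℝ) ≤
      (1 / (p : ℝ) + ε / 2) * ((clp p 1 x).card : ℝ) := mul_le_mul_of_nonneg_left hle (by positivity)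
  have h4 : (1 / (p : ℝ) + ε) * ((clp p 1 x).card : ℝ) = (1 / (p : ℝ) + ε / 2) * ((clp p 1 x).card : ℝ) +
      ε / 2 * ((clp p 1 x).card : ℝ) := by ring
  rw [h4]
  refine hsub'.trans (add_le_add ?_ hε2)
  convert hx1.trans h3

end

end Pool.Agent.Q202.RT
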