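import Pool.Agent.Q202.RT.Two

/-!
# Triples of primes
-/

set_option autoImplicit false

namespace Pool.Agent.Q202.RT

open Finset Filter Topology Pool.Agent.W401.Cheb
open Pool.Agent.W569.TG (lk)
open Pool.Agent.Q315.FM (clp mem_clp clp_tendsto)

section
variable {p : ℕ} [hpF : Fact p.Prime]

/-- the determinant of a triple -/
noncomputable def D3 (χ : ∀ j : ℕ, (ZMod j)ˣ →* Multiplicative (ZMod p)) (a b q : ℕ) : ZMod p :=
  lk χ a b * lk χ b q * lk χ q a - lk χ a q * lk χ b a * lk χ q b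

/-- the primes up to `x` which are `1` modulo `p` -/
noncomputable def P1 (p x : ℕ) : Finset ℕ := open Classical in (pr x).filter fun q => p ∣ q - 1

theorem mem_P1 {x q : ℕ} : q ∈ P1 p x ↔ q ≤ x ∧ q.Prime ∧ p ∣ q - 1 := by
  classical
  rw [P1, mem_filter, mem_pr, and_assoc]

theorem P1_tendsto : Tendsto (fun x : ℕ => ((P1 p x).card : ℝ)) atTop atTop := by
  refine tendsto_atTop_mono (fun x => ?_) (clp_tendsto p 1 hpF.out le_rfl)
  have : clp p 1 x ⊆ P1 p x := by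
    intro q hq
    rw [mem_clp, pow_one] at hq
    exact mem_P1.2 ⟨hq.1, hq.2.1, hq.2.2.1⟩
  exact_mod_cast card_le_card this

open Classical in
theorem bad_triple (hp2 : p ≠ 2) (χ : ∀ j : ℕ, (ZMod j)ˣ →* Multiplicative (ZMod p)) (hχ : Kr χ) (a b : ℕ)
    (ha : a.Prime) (hb : b.Prime) (hpa : p ∣ a - 1) (hpb : p ∣ b - 1) (hab : a ≠ b) (h12 : lk χ a b ≠ 0)
    (ε : ℝ) (hε : 0 < ε) :
    ∀ᶠ x : ℕ in atTop, (((P1 p x).filter fun q => D3 χ a b q = 0).card : ℝ) ≤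
      (1 - (1 - 1 / (p : ℝ)) ^ 2 + ε) * ((P1 p x).card : ℝ) := by
  have hp : p.Prime := hpF.out
  have hnep : ∀ q : ℕ, q.Prime → p ∣ q - 1 → q ≠ p := by
    rintro q hq h rfl
    have := Nat.le_of_dvd (by have := hq.two_le; omega) h
    have := hq.two_le
    omega
  have hM0 : p * b ≠ 0 := mul_ne_zero hp.ne_zero hb.ne_zero
  have hMk : (p * b).Coprime a := Nat.Coprime.mul_left ((Nat.coprime_primes hp ha).2 (Ne.symm (hnep a ha hpa)))
    ((Nat.coprime_primes hb ha).2 (Ne.symm hab))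
  have : NeZero (p * b * a) := ⟨mul_ne_zero hM0 ha.ne_zero⟩
  have hpM : p ∣ p * b := Dvd.intro _ rfl
  have haN : a ∣ p * b * a := Dvd.intro_left _ rfl
  have hbN : b ∣ p * b * a := (Dvd.intro_left p rfl : b ∣ p * b).mul_right a
  set A : Finset (ZMod (p * b * a))ˣ := univ.filter fun u => ZMod.castHom (hpM.mul_right a) (ZMod p) (u : ZMod (p * b * a)) = 1
    with hA
  have hcop : ∀ (q : ℕ) (u : (ZMod (p * b * a))ˣ), (u : ZMod (p * b * a)) = (q : ZMod (p * b * a)) → q.Coprime (p * b * a) := by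
    intro q u h
    rw [← ZMod.isUnit_iff_coprime, ← h]
    exact u.isUnit
  have hcl : ∀ q : ℕ, q.Prime → (∃ u ∈ A, ((u : (ZMod (p * b * a))ˣ) : ZMod (p * b * a)) = (q : ZMod (p * b * a))) →
      p ∣ q - 1 ∧ q ≠ a ∧ q ≠ b := by
    rintro q hq ⟨u, hu, huq⟩
    rw [hA, mem_filter, huq, map_natCast] at hu
    have hc := hcop q u huq
    refine ⟨?_, ?_, ?_⟩
    · have h1 : ((q - 1 : ℕ) : ZMod p) = 0 := by rw [Nat.cast_sub hq.one_le, hu.2, Nat.cast_one, sub_self]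
      exact (ZMod.natCast_eq_zero_iff _ _).1 h1
    · rintro rfl
      have h2 : q ∣ Nat.gcd q (p * b * q) := Nat.dvd_gcd dvd_rfl haN
      rw [hc] at h2
      exact hq.one_lt.ne' (Nat.dvd_one.1 h2)
    · rintro rfl
      have h2 : q ∣ Nat.gcd q (p * q * a) := Nat.dvd_gcd dvd_rfl hbN
      rw [hc] at h2
      exact hq.one_lt.ne' (Nat.dvd_one.1 h2)
  have hcl' : ∀ q : ℕ, q.Prime → p ∣ q - 1 → q ≠ a → q ≠ b →
      (∃ u ∈ A, ((u : (ZMod (p * b * a))ˣ) : ZMod (p * b * a)) = (q : ZMod (p * b * a))) := by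
    intro q hq h1 h2 h3
    have hc : q.Coprime (p * b * a) :=
      Nat.Coprime.mul_right (Nat.Coprime.mul_right ((Nat.coprime_primes hq hp).2 (hnep q hq h1))
        ((Nat.coprime_primes hq hb).2 h3)) ((Nat.coprime_primes hq ha).2 h2)
    refine ⟨ZMod.unitOfCoprime q hc, ?_, ZMod.coe_unitOfCoprime q hc⟩
    rw [hA, mem_filter, ZMod.coe_unitOfCoprime, map_natCast]
    refine ⟨mem_univ _, ?_⟩
    have h4 := (ZMod.natCast_eq_zero_iff _ _).2 h1
    rw [Nat.cast_sub hq.one_le, Nat.cast_one, sub_eq_zero] at h4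
    exact h4
  have hct : Tendsto (fun x : ℕ => ((P1 p x).card : ℝ)) atTop atTop := P1_tendsto
  have hAne : A.Nonempty := by
    refine ⟨1, ?_⟩
    rw [hA, mem_filter, Units.val_one, map_one]
    exact ⟨mem_univ _, rfl⟩
  have hcc : ∀ u : ZMod (p * b * a), ZMod.castHom (hpM.mul_right a) (ZMod p) u =
      ZMod.castHom hpM (ZMod p) (ZMod.castHom (Dvd.intro a rfl : p * b ∣ p * b * a) (ZMod (p * b)) u) := by
    intro u
    have : ((ZMod.castHom hpM (ZMod p)).comp (ZMod.castHom (Dvd.intro a rfl : p * b ∣ p * b * a) (ZMod (p * b)))) =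
      ZMod.castHom (hpM.mul_right a) (ZMod p) := ZMod.castHom_comp _ _
    rw [← this]
    rfl
  set s : (ZMod (p * b * a))ˣ → ZMod p := fun r => lk χ a b * sy χ haN r with hs
  set t : (ZMod (p * b * a))ˣ → ZMod p := fun r => lk χ b a * sy χ hbN r with ht
  have heng := engine2 hp2 χ hM0 ha.ne_zero hMk hpM (hχ a ha hpa).1 A hAne (by
      intro u v huv hu
      rw [hA, mem_filter] at hu ⊢
      rw [hcc, ← huv, ← hcc]
      exact ⟨mem_univ _, hu.2⟩) (fun u hu => (mem_filter.1 hu).2) (fun r => b ^ (s r).val * a ^ (-(t r)).val)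
    (fun _ _ _ => mul_ne_zero (pow_ne_zero _ hb.ne_zero) (pow_ne_zero _ ha.ne_zero))
    (fun r _ hr c => by
      refine rat_no_root' hp (mul_ne_zero (pow_ne_zero _ hb.ne_zero) (pow_ne_zero _ ha.ne_zero)) hb ?_ c
      rw [val_pow_valuation (p := a) (hpF := ⟨ha⟩) ha hb (Ne.symm hab)]
      exact not_dvd_val (mul_ne_zero h12 hr)) (fun q => D3 χ a b q = 0) (by
      intro q hq r hr _ hrq hD
      obtain ⟨h1, h2, h3⟩ := hcl q hq ⟨r, hr, hrq⟩
      have e1 : lk χ q a = sy χ haN r := lk_eq_sy χ haN r hrq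
      have e2 : lk χ q b = sy χ hbN r := lk_eq_sy χ hbN r hrq
      have e4 : ((s r).val : ZMod p) * lk χ b q + ((-(t r)).val : ZMod p) * lk χ a q = 0 := by
        rw [ZMod.natCast_zmod_val, ZMod.natCast_zmod_val]
        have e5 : s r = lk χ a b * lk χ q a := by rw [hs, e1]
        have e6 : t r = lk χ b a * lk χ q b := by rw [ht, e2]
        rw [e5, e6]
        have hD' : lk χ a b * lk χ b q * lk χ q a - lk χ a q * lk χ b a * lk χ q b = 0 := hD
        linear_combination hD'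
      exact Pool.Agent.TH146.FM.lk_pair hq h1 hb ha (Ne.symm h3) (Ne.symm h2) (hχ q hq h1).2 _ _ e4) (ε / 2) (by positivity)
  filter_upwards [heng, hct.eventually_ge_atTop (4 / ε)] with x hx1 hx2
  have hle : ((((pr x).filter fun q : ℕ => ∃ u ∈ A, ((u : (ZMod (p * b * a))ˣ) : ZMod (p * b * a)) = (q : ZMod (p * b * a))).card : ℕ) : ℝ) ≤
      (P1 p x).card := by
    have : ((pr x).filter fun q : ℕ => ∃ u ∈ A, ((u : (ZMod (p * b * a))ˣ) : ZMod (p * b * a)) = (q : ZMod (p * b * a))) ⊆ P1 p x := by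
      intro q hq
      rw [mem_filter, mem_pr] at hq
      exact mem_P1.2 ⟨hq.1.1, hq.1.2, (hcl q hq.1.2 hq.2).1⟩
    exact_mod_cast card_le_card this
  have hsub : ((P1 p x).filter fun q => D3 χ a b q = 0) ⊆
      ((pr x).filter fun q : ℕ => (∃ u ∈ A, ((u : (ZMod (p * b * a))ˣ) : ZMod (p * b * a)) = (q : ZMod (p * b * a))) ∧
        (lk χ q a = 0 ∨ D3 χ a b q = 0)) ∪ {a, b} := by
    intro q hq
    rw [mem_filter, mem_P1] at hq
    obtain ⟨⟨h1, h2, h3⟩, h5⟩ := hq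
    by_cases hqa : q = a
    · exact mem_union_right _ (by rw [hqa]; simp)
    by_cases hqb : q = b
    · exact mem_union_right _ (by rw [hqb]; simp)
    · refine mem_union_left _ (mem_filter.2 ⟨mem_pr.2 ⟨h1, h2⟩, hcl' q h2 h3 hqa hqb, Or.inr h5⟩)
  have hsub' : (((P1 p x).filter fun q => D3 χ a b q = 0).card : ℝ) ≤
      ((((pr x).filter fun q : ℕ => (∃ u ∈ A, ((u : (ZMod (p * b * a))ˣ) : ZMod (p * b * a)) = (q : ZMod (p * b * a))) ∧
        (lk χ q a = 0 ∨ D3 χ a b q = 0)).card : ℕ) : ℝ) + 2 := by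
    have h1 := (card_le_card hsub).trans (card_union_le _ _)
    rw [card_pair hab] at h1
    exact_mod_cast h1
  have hε2 : 2 ≤ ε / 2 * ((P1 p x).card : ℝ) := by
    have : 4 / ε ≤ ((P1 p x).card : ℝ) := hx2
    rw [div_le_iff₀ hε] at this
    linarith
  have hp1 : (0 : ℝ) ≤ 1 - (1 - 1 / (p : ℝ)) ^ 2 := by
    have h1 : (1 : ℝ) ≤ p := by exact_mod_cast hp.one_le
    have h2 : (0 : ℝ) ≤ 1 - 1 / (p : ℝ) := by
      rw [sub_nonneg, div_le_one (by linarith)]
      exact h1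
    have h3 : 1 - 1 / (p : ℝ) ≤ 1 := by
      have : 0 ≤ 1 / (p : ℝ) := by positivity
      linarith
    nlinarith
  have h3 : (1 - (1 - 1 / (p : ℝ)) ^ 2 + ε / 2) * ((((pr x).filter fun q : ℕ => ∃ u ∈ A, ((u : (ZMod (p * b * a))ˣ) : ZMod (p * b * a)) =
      (q : ZMod (p * b * a))).card : ℕ) : ℝ) ≤
      (1 - (1 - 1 / (p : ℝ)) ^ 2 + ε / 2) * ((P1 p x).card : ℝ) := mul_le_mul_of_nonneg_left hle (by linarith)
  have h4 : (1 - (1 - 1 / (p : ℝ)) ^ 2 + ε) * ((P1 p x).card : ℝ) =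
      (1 - (1 - 1 / (p : ℝ)) ^ 2 + ε / 2) * ((P1 p x).card : ℝ) + ε / 2 * ((P1 p x).card : ℝ) := by ring
  rw [h4]
  refine hsub'.trans (add_le_add ?_ hε2)
  convert hx1.trans h3

end

end Pool.Agent.Q202.RT
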