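import Pool.Agent.Q202.RT.Fib

/-!
# Pairs and triples of primes
-/

set_option autoImplicit false

namespace Pool.Agent.Q202.RT

open Finset Filter Topology Pool.Agent.W401.Cheb
open Pool.Agent.W569.TG (lk)
open Pool.Agent.Q315.FM (clp mem_clp clp_tendsto)

section
variable {p : ℕ} [hpF : Fact p.Prime]

open Classical in
theorem engine2 (hp2 : p ≠ 2) (χ : ∀ j : ℕ, (ZMod j)ˣ →* Multiplicative (ZMod p)) {M k : ℕ} (hM : M ≠ 0) (hk : k ≠ 0)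
    (hMk : M.Coprime k) (hpM : p ∣ M) (h : ∃ x, χ k x ≠ 1) (A : Finset (ZMod (M * k))ˣ) (hAne : A.Nonempty)
    (hA : ∀ u v : (ZMod (M * k))ˣ, ZMod.castHom (Dvd.intro k rfl : M ∣ M * k) (ZMod M) (u : ZMod (M * k)) =
      ZMod.castHom (Dvd.intro k rfl : M ∣ M * k) (ZMod M) (v : ZMod (M * k)) → u ∈ A → v ∈ A)
    (hAp : ∀ u ∈ A, ZMod.castHom (hpM.mul_right k) (ZMod p) (u : ZMod (M * k)) = 1)
    (b : (ZMod (M * k))ˣ → ℕ) (hb0 : ∀ r ∈ A, sy χ (Dvd.intro_left M rfl : k ∣ M * k) r ≠ 0 → b r ≠ 0)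
    (hb : ∀ r ∈ A, sy χ (Dvd.intro_left M rfl : k ∣ M * k) r ≠ 0 → ∀ c : ℚ, c ^ p ≠ (b r : ℚ)) (bad : ℕ → Prop)
    (hbad : ∀ q : ℕ, q.Prime → ∀ r ∈ A, sy χ (Dvd.intro_left M rfl : k ∣ M * k) r ≠ 0 →
      (r : ZMod (M * k)) = (q : ZMod (M * k)) → bad q → ∃ y : ZMod q, y ^ p = (b r : ZMod q))
    (ε : ℝ) (hε : 0 < ε) :
    ∀ᶠ x : ℕ in atTop, (((pr x).filter fun q : ℕ => (∃ u ∈ A, ((u : (ZMod (M * k))ˣ) : ZMod (M * k)) = (q : ZMod (M * k))) ∧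
      (lk χ q k = 0 ∨ bad q)).card : ℝ) ≤ (1 - (1 - 1 / (p : ℝ)) ^ 2 + ε) *
        (((pr x).filter fun q : ℕ => ∃ u ∈ A, ((u : (ZMod (M * k))ˣ) : ZMod (M * k)) = (q : ZMod (M * k))).card : ℝ) := by
  have hp : p.Prime := hpF.out
  have hp0 : (0 : ℝ) < p := by exact_mod_cast hp.pos
  set A0 : Finset (ZMod (M * k))ˣ := A.filter fun u => sy χ (Dvd.intro_left M rfl : k ∣ M * k) u = 0 with hA0
  have hf := fib χ hM hk hMk h A hA
  rw [← hA0] at hf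
  have hAc : (0 : ℝ) < A.card := by exact_mod_cast hAne.card_pos
  have hmem : ∀ r, r ∈ A \ A0 ↔ r ∈ A ∧ sy χ (Dvd.intro_left M rfl : k ∣ M * k) r ≠ 0 := by
    intro r
    rw [Finset.mem_sdiff, hA0, mem_filter]
    exact ⟨fun h => ⟨h.1, fun h' => h.2 ⟨h.1, h'⟩⟩, fun h => ⟨h.1, fun h' => h.2 h'.2⟩⟩
  have he := engine (M * k) p (mul_ne_zero hM hk) hp hp2 (hpM.mul_right k) A A0 (filter_subset _ _) hAne hAp b
    (fun r hr => hb0 r ((hmem r).1 hr).1 ((hmem r).1 hr).2) (fun r hr => hb r ((hmem r).1 hr).1 ((hmem r).1 hr).2)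
    (fun q => lk χ q k = 0 ∨ bad q) (by
      intro q hq r hr hrq hbq
      obtain ⟨h1, h2⟩ := (hmem r).1 hr
      rcases hbq with h3 | h3
      · exact absurd (by rw [← lk_eq_sy χ _ r hrq, h3]) h2
      · exact hbad q hq r h1 h2 hrq h3) ε hε
  have e : ((A0.card : ℝ) + ((A.card : ℝ) - A0.card) / p) / A.card = 1 - (1 - 1 / (p : ℝ)) ^ 2 := by
    have h1 : (p : ℝ) * A0.card = A.card := by exact_mod_cast hf
    rw [← h1]
    have h2 : (A0.card : ℝ) ≠ 0 := by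
      intro h3
      rw [h3, mul_zero] at h1
      exact hAc.ne h1
    field_simp
    ring
  rw [e] at he
  convert he

open Classical in
/-- **Every pair.** -/
theorem bad_pair2 (hp2 : p ≠ 2) (χ : ∀ j : ℕ, (ZMod j)ˣ →* Multiplicative (ZMod p)) (hχ : Kr χ) (k : ℕ) (hk : k.Prime)
    (hpk : p ∣ k - 1) (ε : ℝ) (hε : 0 < ε) :
    ∀ᶠ x : ℕ in atTop, (((clp p 1 x).filter fun l => lk χ l k = 0 ∨ lk χ p l = 0).card : ℝ) ≤
      (1 - (1 - 1 / (p : ℝ)) ^ 2 + ε) * ((clp p 1 x).card : ℝ) := by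
  have hp : p.Prime := hpF.out
  have hne : k ≠ p := by
    rintro rfl
    have := Nat.le_of_dvd (by have := hk.two_le; omega) hpk
    have := hk.two_le
    omega
  have hMk : (p ^ 2).Coprime k := ((Nat.coprime_primes hp hk).2 (Ne.symm hne)).pow_left 2
  have hM0 : p ^ 2 ≠ 0 := pow_ne_zero _ hp.ne_zero
  have : NeZero (p ^ 2 * k) := ⟨mul_ne_zero hM0 hk.ne_zero⟩
  have hpM : p ∣ p ^ 2 := dvd_pow_self p two_ne_zero
  have hkN : k ∣ p ^ 2 * k := Dvd.intro_left _ rfl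
  set A : Finset (ZMod (p ^ 2 * k))ˣ := univ.filter fun u => ZMod.castHom (hpM.mul_right k) (ZMod p) (u : ZMod (p ^ 2 * k)) = 1 ∧
    ZMod.castHom (Dvd.intro k rfl : p ^ 2 ∣ p ^ 2 * k) (ZMod (p ^ 2)) (u : ZMod (p ^ 2 * k)) ≠ 1 with hA
  have hcop : ∀ (q : ℕ) (u : (ZMod (p ^ 2 * k))ˣ), (u : ZMod (p ^ 2 * k)) = (q : ZMod (p ^ 2 * k)) → q.Coprime (p ^ 2 * k) := by
    intro q u h
    rw [← ZMod.isUnit_iff_coprime, ← h]
    exact u.isUnit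
  have hcl : ∀ q : ℕ, q.Prime → (∃ u ∈ A, ((u : (ZMod (p ^ 2 * k))ˣ) : ZMod (p ^ 2 * k)) = (q : ZMod (p ^ 2 * k))) →
      p ∣ q - 1 ∧ ¬ p ^ 2 ∣ q - 1 := by
    rintro q hq ⟨u, hu, huq⟩
    rw [hA, mem_filter, huq, map_natCast, map_natCast] at hu
    refine ⟨?_, ?_⟩
    · have h1 : ((q - 1 : ℕ) : ZMod p) = 0 := by rw [Nat.cast_sub hq.one_le, hu.2.1, Nat.cast_one, sub_self]
      exact (ZMod.natCast_eq_zero_iff _ _).1 h1
    · intro h
      apply hu.2.2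
      have h1 : ((q - 1 : ℕ) : ZMod (p ^ 2)) = 0 := (ZMod.natCast_eq_zero_iff _ _).2 h
      rw [Nat.cast_sub hq.one_le, Nat.cast_one, sub_eq_zero] at h1
      exact h1
  have hcl' : ∀ q : ℕ, q.Prime → p ∣ q - 1 → ¬ p ^ 2 ∣ q - 1 → q ≠ k →
      (∃ u ∈ A, ((u : (ZMod (p ^ 2 * k))ˣ) : ZMod (p ^ 2 * k)) = (q : ZMod (p ^ 2 * k))) := by
    intro q hq h1 h2 h3
    have hqp : q ≠ p := by
      rintro rfl
      have := Nat.le_of_dvd (by have := hq.two_le; omega) h1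
      have := hq.two_le
      omega
    have hc : q.Coprime (p ^ 2 * k) :=
      Nat.Coprime.mul_right (((Nat.coprime_primes hq hp).2 hqp).pow_right 2) ((Nat.coprime_primes hq hk).2 h3)
    refine ⟨ZMod.unitOfCoprime q hc, ?_, ZMod.coe_unitOfCoprime q hc⟩
    rw [hA, mem_filter, ZMod.coe_unitOfCoprime, map_natCast, map_natCast]
    refine ⟨mem_univ _, ?_, fun h => h2 ?_⟩
    · have h4 := (ZMod.natCast_eq_zero_iff _ _).2 h1
      rw [Nat.cast_sub hq.one_le, Nat.cast_one, sub_eq_zero] at h4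
      exact h4
    · apply (ZMod.natCast_eq_zero_iff _ _).1
      rw [Nat.cast_sub hq.one_le, h, Nat.cast_one, sub_self]
  have hct := clp_tendsto p 1 hp le_rfl
  have hAne : A.Nonempty := by
    obtain ⟨x, hx⟩ := (hct.eventually_ge_atTop 2).exists
    have h1 : 1 < (clp p 1 x).card := by
      have : (2 : ℝ) ≤ ((clp p 1 x).card : ℝ) := hx
      exact_mod_cast this
    obtain ⟨q, hq, hqk⟩ := exists_mem_ne h1 k
    obtain ⟨-, h2, h3, h4⟩ := mem_clp.1 hq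
    rw [pow_one] at h3
    obtain ⟨u, hu, -⟩ := hcl' q h2 h3 (by simpa using h4) hqk
    exact ⟨u, hu⟩
  have hcc : ∀ u : ZMod (p ^ 2 * k), ZMod.castHom (hpM.mul_right k) (ZMod p) u =
      ZMod.castHom hpM (ZMod p) (ZMod.castHom (Dvd.intro k rfl : p ^ 2 ∣ p ^ 2 * k) (ZMod (p ^ 2)) u) := by
    intro u
    have : ((ZMod.castHom hpM (ZMod p)).comp (ZMod.castHom (Dvd.intro k rfl : p ^ 2 ∣ p ^ 2 * k) (ZMod (p ^ 2)))) =
      ZMod.castHom (hpM.mul_right k) (ZMod p) := ZMod.castHom_comp _ _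
    rw [← this]
    rfl
  have heng := engine2 hp2 χ hM0 hk.ne_zero hMk hpM (hχ k hk hpk).1 A hAne (by
      intro u v huv hu
      rw [hA, mem_filter] at hu ⊢
      rw [hcc, ← huv, ← hcc]
      exact ⟨mem_univ _, hu.2⟩) (fun u hu => (mem_filter.1 hu).2.1) (fun _ => p) (fun _ _ _ => hp.ne_zero)
    (fun _ _ _ c => rat_no_root hp hp c) (fun q => lk χ p q = 0) (by
      intro q hq r hr _ hrq hbq
      obtain ⟨h1, -⟩ := hcl q hq ⟨r, hr, hrq⟩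
      have hpq : p ≠ q := by
        rintro rfl
        have := Nat.le_of_dvd (by have := hq.two_le; omega) h1
        have := hq.two_le
        omega
      exact (Pool.Agent.TH146.FM.lk_eq_zero_iff hq h1 hp hpq (hχ q hq h1).2).1 hbq) (ε / 2) (by positivity)
  filter_upwards [heng, hct.eventually_ge_atTop (2 / ε)] with x hx1 hx2
  have hle : ((((pr x).filter fun q : ℕ => ∃ u ∈ A, ((u : (ZMod (p ^ 2 * k))ˣ) : ZMod (p ^ 2 * k)) = (q : ZMod (p ^ 2 * k))).card : ℕ) : ℝ) ≤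
      (clp p 1 x).card := by
    have : ((pr x).filter fun q : ℕ => ∃ u ∈ A, ((u : (ZMod (p ^ 2 * k))ˣ) : ZMod (p ^ 2 * k)) = (q : ZMod (p ^ 2 * k))) ⊆ clp p 1 x := by
      intro q hq
      rw [mem_filter, mem_pr] at hq
      obtain ⟨h1, h2⟩ := hcl q hq.1.2 hq.2
      rw [mem_clp, pow_one]
      exact ⟨hq.1.1, hq.1.2, h1, by simpa using h2⟩
    exact_mod_cast card_le_card this
  have hsub : ((clp p 1 x).filter fun l => lk χ l k = 0 ∨ lk χ p l = 0) ⊆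
      ((pr x).filter fun q : ℕ => (∃ u ∈ A, ((u : (ZMod (p ^ 2 * k))ˣ) : ZMod (p ^ 2 * k)) = (q : ZMod (p ^ 2 * k))) ∧
        (lk χ q k = 0 ∨ lk χ p q = 0)) ∪ {k} := by
    intro q hq
    rw [mem_filter, mem_clp, pow_one] at hq
    obtain ⟨⟨h1, h2, h3, h4⟩, h5⟩ := hq
    by_cases hqk : q = k
    · exact mem_union_right _ (mem_singleton.2 hqk)
    · refine mem_union_left _ (mem_filter.2 ⟨mem_pr.2 ⟨h1, h2⟩, hcl' q h2 h3 (by simpa using h4) hqk, h5⟩)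
  have hsub' : (((clp p 1 x).filter fun l => lk χ l k = 0 ∨ lk χ p l = 0).card : ℝ) ≤
      ((((pr x).filter fun q : ℕ => (∃ u ∈ A, ((u : (ZMod (p ^ 2 * k))ˣ) : ZMod (p ^ 2 * k)) = (q : ZMod (p ^ 2 * k))) ∧
        (lk χ q k = 0 ∨ lk χ p q = 0)).card : ℕ) : ℝ) + 1 := by
    have h1 := (card_le_card hsub).trans (card_union_le _ _)
    rw [card_singleton] at h1
    exact_mod_cast h1
  have hε2 : 1 ≤ ε / 2 * ((clp p 1 x).card : ℝ) := by
    have : 2 / ε ≤ ((clp p 1 x).card : ℝ) := hx2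
    rw [div_le_iff₀ hε] at this
    linarith
  have hp1 : (0 : ℝ) ≤ 1 - (1 - 1 / (p : ℝ)) ^ 2 := by
    have h1 : (1 : ℝ) ≤ p := by exact_mod_cast hp.one_le
    have h2 : (0 : ℝ) ≤ 1 - 1 / (p : ℝ) := by
      rw [sub_nonneg, div_le_one (by linarith)]
      exact h1
    have h3 : 1 - 1 / (p : ℝ) ≤ 1 := by
      have : 0 ≤ 1 / (p : ℝ) := by positivity
      linarith
    nlinarith
  have h3 : (1 - (1 - 1 / (p : ℝ)) ^ 2 + ε / 2) * ((((pr x).filter fun q : ℕ => ∃ u ∈ A, ((u : (ZMod (p ^ 2 * k))ˣ) : ZMod (p ^ 2 * k)) =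
      (q : ZMod (p ^ 2 * k))).card : ℕ) : ℝ) ≤
      (1 - (1 - 1 / (p : ℝ)) ^ 2 + ε / 2) * ((clp p 1 x).card : ℝ) := mul_le_mul_of_nonneg_left hle (by linarith)
  have h4 : (1 - (1 - 1 / (p : ℝ)) ^ 2 + ε) * ((clp p 1 x).card : ℝ) =
      (1 - (1 - 1 / (p : ℝ)) ^ 2 + ε / 2) * ((clp p 1 x).card : ℝ) + ε / 2 * ((clp p 1 x).card : ℝ) := by ring
  rw [h4]
  refine hsub'.trans (add_le_add ?_ hε2)
  convert hx1.trans h3

end

end Pool.Agent.Q202.RT
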